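import Pool.Agent.H659R3.BigMCG.Wind

/-! Oriented surfaces, orientation-preserving homeomorphisms, isotopies, mapping class groups. -/

set_option autoImplicit false

open Topology unitInterval

namespace Pool.Agent.H659R3.BigMCG

/-- An oriented surface: a connected, second countable Hausdorff space with an oriented atlas,
that is, a set of charts (homeomorphisms from open subsets of `S` onto open subsets of the plane)
whose domains cover `S` and whose transition maps preserve the orientation of the plane. -/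
class OrientedSurface (S : Type) [TopologicalSpace S] : Type where
  /-- the space is Hausdorff -/
  t2 : T2Space S
  /-- the space is second countable -/
  secondCountable : SecondCountableTopology S
  /-- the space is connected -/
  connected : ConnectedSpace S
  /-- the oriented atlas -/
  charts : Set (OpenPartialHomeomorph S ℂ)
  /-- the domains of the charts cover `S` -/
  cover : ∀ x : S, ∃ φ ∈ charts, x ∈ φ.source
  /-- the transition maps preserve the orientation -/
  oriented : ∀ φ ∈ charts, ∀ ψ ∈ charts, ∀ x ∈ φ.source, x ∈ ψ.source →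
    OrientPresAt (ψ ∘ φ.symm) (φ x)

section

variable {S : Type} [TopologicalSpace S] [OrientedSurface S]

/-- The homeomorphism `h` preserves the orientation, read in the charts of the oriented atlas. -/
def PreservesOrientation (h : S ≃ₜ S) : Prop :=
  ∀ φ ∈ OrientedSurface.charts (S := S), ∀ ψ ∈ OrientedSurface.charts (S := S),
    ∀ x ∈ φ.source, h x ∈ ψ.source → OrientPresAt (ψ ∘ h ∘ φ.symm) (φ x)

theorem PreservesOrientation.mul {h₁ h₂ : S ≃ₜ S} (H₁ : PreservesOrientation h₁)
    (H₂ : PreservesOrientation h₂) : PreservesOrientation (h₁ * h₂) := by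
  intro φ hφ ψ hψ x hx hx'
  obtain ⟨χ, hχ, hxχ⟩ := OrientedSurface.cover (h₂ x)
  have h2 := H₂ φ hφ χ hχ x hx hxχ
  have h1 := H₁ χ hχ ψ hψ (h₂ x) hxχ hx'
  have hval : (χ ∘ h₂ ∘ φ.symm) (φ x) = χ (h₂ x) := by simp [φ.left_inv hx]
  -- neighbourhood where the second map is continuous and injective
  have hopen : IsOpen (χ.target ∩ χ.symm ⁻¹' (h₁ ⁻¹' ψ.source)) :=
    χ.isOpen_inter_preimage_symm (ψ.open_source.preimage h₁.continuous)
  have hmem : χ (h₂ x) ∈ χ.target ∩ χ.symm ⁻¹' (h₁ ⁻¹' ψ.source) := by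
    refine ⟨χ.map_source hxχ, ?_⟩
    rw [Set.mem_preimage, χ.left_inv hxχ]
    exact hx'
  obtain ⟨δ, hδ, hball⟩ := Metric.isOpen_iff.1 hopen _ hmem
  have hcont2 : ContinuousAt (χ ∘ h₂ ∘ φ.symm) (φ x) := by
    have a1 : ContinuousAt φ.symm (φ x) := φ.continuousAt_symm (φ.map_source hx)
    have a2 : ContinuousAt h₂ (φ.symm (φ x)) := h₂.continuous.continuousAt
    have a3 : ContinuousAt χ (h₂ (φ.symm (φ x))) := by
      rw [φ.left_inv hx]; exact χ.continuousAt hxχ
    exact (a3.comp (f := h₂ ∘ φ.symm) (a2.comp a1))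
  have hg : OrientPresAt ((ψ ∘ h₁ ∘ χ.symm) ∘ (χ ∘ h₂ ∘ φ.symm)) (φ x) := by
    refine h2.comp (by rw [hval]; exact h1) hcont2 hδ ?_ ?_
    · rw [hval]
      intro w hw
      obtain ⟨hw1, hw2⟩ := hball hw
      have a1 : ContinuousAt χ.symm w := χ.continuousAt_symm hw1
      have a2 : ContinuousAt h₁ (χ.symm w) := h₁.continuous.continuousAt
      have a3 : ContinuousAt ψ (h₁ (χ.symm w)) := ψ.continuousAt hw2
      exact (a3.comp (f := h₁ ∘ χ.symm) (a2.comp a1)).continuousWithinAt
    · rw [hval]
      intro w hw v hv hwv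
      obtain ⟨hw1, hw2⟩ := hball hw
      obtain ⟨hv1, hv2⟩ := hball hv
      have := ψ.injOn hw2 hv2 hwv
      exact χ.symm.injOn hw1 hv1 (h₁.injective this)
  refine hg.congr ?_
  have hn : (φ.target ∩ φ.symm ⁻¹' (h₂ ⁻¹' χ.source)) ∈ 𝓝 (φ x) :=
    (φ.isOpen_inter_preimage_symm (χ.open_source.preimage h₂.continuous)).mem_nhds
      ⟨φ.map_source hx, by rw [Set.mem_preimage, φ.left_inv hx]; exact hxχ⟩
  filter_upwards [hn] with w hw
  show ψ (h₁ (h₂ (φ.symm w))) = ψ (h₁ (χ.symm (χ (h₂ (φ.symm w)))))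
  rw [χ.left_inv hw.2]

theorem PreservesOrientation.one : PreservesOrientation (1 : S ≃ₜ S) := by
  intro φ hφ ψ hψ x hx hx'
  exact OrientedSurface.oriented φ hφ ψ hψ x hx hx'

variable (S) in
/-- The group of orientation-preserving homeomorphisms of `S` (under composition). -/
def HomeoPlus : Subgroup (S ≃ₜ S) where
  carrier := {h | PreservesOrientation h ∧ PreservesOrientation h⁻¹}
  one_mem' := ⟨PreservesOrientation.one, by rw [inv_one]; exact PreservesOrientation.one⟩
  mul_mem' := by
    rintro a b ⟨ha, ha'⟩ ⟨hb, hb'⟩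
    exact ⟨ha.mul hb, by rw [mul_inv_rev]; exact hb'.mul ha'⟩
  inv_mem' := by
    rintro a ⟨ha, ha'⟩
    exact ⟨ha', by rw [inv_inv]; exact ha⟩

omit [OrientedSurface S] in
/-- `h` is isotopic to the identity: there is a level-preserving homeomorphism of `S × [0, 1]`
which is the identity on level `0` and `h` on level `1`. -/
def IsotopicToId (h : S ≃ₜ S) : Prop :=
  ∃ Φ : (S × I) ≃ₜ (S × I), (∀ p, (Φ p).2 = p.2) ∧ (∀ x, Φ (x, 0) = (x, 0)) ∧
    ∀ x, Φ (x, 1) = (h x, 1)

variable (S) in
/-- The orientation-preserving homeomorphisms isotopic to the identity. -/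
def HomeoZero : Subgroup (HomeoPlus S) where
  carrier := {h | IsotopicToId (h : S ≃ₜ S)}
  one_mem' := ⟨Homeomorph.refl _, fun _ => rfl, fun _ => rfl, fun _ => rfl⟩
  mul_mem' := by
    rintro a b ⟨Φ, h1, h2, h3⟩ ⟨Ψ, k1, k2, k3⟩
    refine ⟨Ψ.trans Φ, fun p => ?_, fun x => ?_, fun x => ?_⟩
    · rw [Homeomorph.trans_apply, h1, k1]
    · rw [Homeomorph.trans_apply, k2, h2]
    · rw [Homeomorph.trans_apply, k3, h3]; rfl
  inv_mem' := by
    rintro a ⟨Φ, h1, h2, h3⟩
    refine ⟨Φ.symm, fun p => ?_, fun x => ?_, fun x => ?_⟩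
    · have := h1 (Φ.symm p)
      rw [Homeomorph.apply_symm_apply] at this
      exact this.symm
    · rw [Homeomorph.symm_apply_eq, h2]
    · rw [Homeomorph.symm_apply_eq, h3]
      congr 1
      exact ((a : S ≃ₜ S).apply_symm_apply x).symm

instance : (HomeoZero S).Normal := by
  refine ⟨?_⟩
  rintro a ⟨Φ, h1, h2, h3⟩ g
  have hs : ∀ x, (g : S ≃ₜ S) ((g : S ≃ₜ S).symm x) = x := (g : S ≃ₜ S).apply_symm_apply
  refine ⟨(((g : S ≃ₜ S).symm.prodCongr (Homeomorph.refl I)).trans Φ).trans
    ((g : S ≃ₜ S).prodCongr (Homeomorph.refl I)), fun p => ?_, fun x => ?_, fun x => ?_⟩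
  · simp [h1]
  · simp [h2]
  · simp [h3]

variable (S) in
/-- The mapping class group `Map(S)`: orientation-preserving homeomorphisms modulo isotopy. -/
def Map : Type := HomeoPlus S ⧸ HomeoZero S

instance : Group (Map S) := QuotientGroup.Quotient.group (HomeoZero S)

/-- The mapping class of an orientation-preserving homeomorphism. -/
def toMap : HomeoPlus S →* Map S := QuotientGroup.mk' (HomeoZero S)

theorem toMap_eq {a b : HomeoPlus S} : toMap a = toMap b ↔ a⁻¹ * b ∈ HomeoZero S :=
  QuotientGroup.eq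

/-- A mapping class is compactly supported if it is represented by a homeomorphism which is the
identity outside a compact set. -/
def IsCompactlySupported (g : Map S) : Prop :=
  ∃ h : HomeoPlus S, toMap h = g ∧
    ∃ K : Set S, IsCompact K ∧ ∀ x, x ∉ K → (h : S ≃ₜ S) x = x

end

/-- The surface has infinite type: its fundamental group is not finitely generated. -/
def InfiniteType (S : Type) [TopologicalSpace S] : Prop :=
  ∀ x : S, ¬ Group.FG (FundamentalGroup S x)

end Pool.Agent.H659R3.BigMCG
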