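import Mathlib

/-! Extension of homeomorphisms of the complement of a small closed set `E` of a compact
Hausdorff space `T` (Freudenthal), with a compact parameter space `P`. -/

set_option autoImplicit false

open Topology Filter

namespace Pool.Agent.H659R3.BigMCG

/-- A closed set with dense complement, totally separated, which does not locally separate. -/
structure GoodSet {T : Type} [TopologicalSpace T] (E : Set T) : Prop where
  closed : IsClosed E
  dense : Dense Eᶜ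
  conn : ∀ x : T, ∀ N ∈ 𝓝 x, ∃ U ∈ 𝓝 x, U ⊆ N ∧ IsPreconnected (U \ E)
  sep : ∀ y₁ ∈ E, ∀ y₂ ∈ E, y₁ ≠ y₂ → ∃ V₁ V₂ : Set T, IsOpen V₁ ∧ IsOpen V₂ ∧
    Disjoint V₁ V₂ ∧ E ⊆ V₁ ∪ V₂ ∧ y₁ ∈ V₁ ∧ y₂ ∈ V₂

/-- The parameter space is locally connected (weak form). -/
def GoodP (P : Type) [TopologicalSpace P] : Prop :=
  ∀ t : P, ∀ N ∈ 𝓝 t, ∃ J ∈ 𝓝 t, J ⊆ N ∧ IsPreconnected J

variable {T P : Type} [TopologicalSpace T] [CompactSpace T] [T2Space T] [TopologicalSpace P]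
  [CompactSpace P] [T2Space P] {E : Set T}

/-- The inclusion `(T ∖ E) × P → T × P`. -/
def inc (E : Set T) (P : Type) (q : (Eᶜ : Set T) × P) : T × P := (q.1, q.2)

omit [CompactSpace T] [T2Space T] [CompactSpace P] [T2Space P] in
theorem inc_embedding (hE : IsClosed E) : IsOpenEmbedding (inc E P) := by
  have h1 : IsOpenEmbedding (Subtype.val : (Eᶜ : Set T) → T) := hE.isOpen_compl.isOpenEmbedding_subtypeVal
  have h2 : IsOpenEmbedding (id : P → P) := IsOpenEmbedding.id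
  exact h1.prodMap h2

omit [CompactSpace T] [T2Space T] [CompactSpace P] [T2Space P] in
theorem inc_dense (hE : GoodSet E) : IsDenseInducing (inc E P) := by
  refine ⟨(inc_embedding hE.closed).isInducing, ?_⟩
  have h1 : DenseRange (Subtype.val : (Eᶜ : Set T) → T) := hE.dense.denseRange_val
  exact h1.prodMap denseRange_id

omit [CompactSpace T] [T2Space T] [CompactSpace P] [T2Space P] in
theorem mem_range_inc {p : T × P} : p ∈ Set.range (inc E P) ↔ p.1 ∉ E := by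
  constructor
  · rintro ⟨q, rfl⟩; exact q.1.2
  · intro h; exact ⟨(⟨p.1, h⟩, p.2), rfl⟩

/-- Properness: near a point of `E × P`, the image avoids a given compact subset of the
complement. -/
theorem proper_near (hE : GoodSet E) (Φ : ((Eᶜ : Set T) × P) ≃ₜ ((Eᶜ : Set T) × P))
    (x : T) (hx : x ∈ E) (t : P) (K : Set (T × P)) (hK : IsCompact K)
    (hKE : ∀ p ∈ K, p.1 ∉ E) : ∃ W ∈ 𝓝 (x, t), ∀ q, inc E P q ∈ W → inc E P (Φ q) ∉ K := by
  have hemb := (inc_embedding (P := P) hE.closed)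
  have h1 : IsCompact (inc E P ⁻¹' K) := by
    rw [hemb.isInducing.isCompact_iff, Set.image_preimage_eq_inter_range]
    have : K ∩ Set.range (inc E P) = K := by
      rw [Set.inter_eq_left]
      intro p hp
      exact mem_range_inc.2 (hKE p hp)
    rw [this]; exact hK
  have h2 : IsCompact (inc E P '' (Φ.symm '' (inc E P ⁻¹' K))) :=
    (h1.image Φ.symm.continuous).image hemb.continuous
  refine ⟨(inc E P '' (Φ.symm '' (inc E P ⁻¹' K)))ᶜ, ?_, ?_⟩
  · refine h2.isClosed.isOpen_compl.mem_nhds ?_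
    rintro ⟨q, -, hq⟩
    have : x ∉ E := by
      have h := mem_range_inc.1 (⟨q, hq⟩ : (x, t) ∈ Set.range (inc E P))
      exact h
    exact this hx
  · intro q hq hqK
    apply hq
    exact ⟨q, ⟨Φ q, hqK, Φ.symm_apply_apply q⟩, rfl⟩

theorem exists_limit (hE : GoodSet E) (hP : GoodP P)
    (Φ : ((Eᶜ : Set T) × P) ≃ₜ ((Eᶜ : Set T) × P)) (hΦ : ∀ q, (Φ q).2 = q.2)
    (x : T) (hx : x ∈ E) (t : P) :
    ∃ y : T, y ∈ E ∧ Tendsto (fun q => inc E P (Φ q)) (comap (inc E P) (𝓝 (x, t))) (𝓝 (y, t)) := by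
  have hdi := inc_dense (P := P) hE
  have hemb := inc_embedding (P := P) hE.closed
  set l : Filter (T × P) := map (fun q => inc E P (Φ q)) (comap (inc E P) (𝓝 (x, t))) with hl
  haveI : NeBot (comap (inc E P) (𝓝 (x, t))) := hdi.comap_nhds_neBot _
  haveI : NeBot l := by rw [hl]; infer_instance
  -- cluster points lie in `E × {t}`
  have hA : ∀ c : T × P, ClusterPt c l → c.2 = t ∧ c.1 ∈ E := by
    intro c hc
    have h2 : c.2 = t := by
      have h3 : Tendsto (fun q : (Eᶜ : Set T) × P => (inc E P (Φ q)).2)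
          (comap (inc E P) (𝓝 (x, t))) (𝓝 t) := by
        have h4 : (fun q : (Eᶜ : Set T) × P => (inc E P (Φ q)).2) =
            Prod.snd ∘ inc E P := by
          funext q; exact hΦ q
        rw [h4]
        exact (continuous_snd.tendsto (x, t)).comp tendsto_comap
      have h5 : Tendsto Prod.snd l (𝓝 t) := by
        rw [hl, tendsto_map'_iff]; exact h3
      have h6 : ClusterPt c.2 (map Prod.snd l) := hc.map continuous_snd.continuousAt tendsto_map
      exact eq_of_nhds_neBot (h6.mono h5)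
    refine ⟨h2, ?_⟩
    by_contra hcE
    obtain ⟨K, hK, hKn, hKE⟩ := exists_compact_subset hE.closed.isOpen_compl hcE
    obtain ⟨W, hW, hW2⟩ := proper_near hE Φ x hx t (K ×ˢ Set.univ)
      (hK.prod isCompact_univ) (fun p hp => hKE hp.1)
    have h7 : (K ×ˢ (Set.univ : Set P))ᶜ ∈ l := by
      rw [hl, mem_map]
      exact ⟨W, hW, fun q hq => hW2 q hq⟩
    have h8 : (K ×ˢ (Set.univ : Set P)) ∈ 𝓝 c := by
      have : c = (c.1, c.2) := rfl
      rw [this, nhds_prod_eq]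
      exact prod_mem_prod (mem_interior_iff_mem_nhds.1 hKn) univ_mem
    have := (hc.frequently (p := fun z => z ∈ K ×ˢ (Set.univ : Set P)) h8)
    exact this (h7)
  obtain ⟨c, hc⟩ := exists_clusterPt_of_compactSpace l
  obtain ⟨hct, hcE⟩ := hA c hc
  refine ⟨c.1, hcE, ?_⟩
  have hcc : c = (c.1, t) := by rw [← hct]
  rw [← hcc]
  show l ≤ 𝓝 c
  refine le_nhds_of_unique_clusterPt fun c' hc' => ?_
  obtain ⟨hct', hcE'⟩ := hA c' hc'
  by_contra hne
  have hne1 : c'.1 ≠ c.1 := fun h => hne (Prod.ext h (hct'.trans hct.symm))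
  obtain ⟨V₁, V₂, hV₁, hV₂, hdis, hcov, hc1, hc2⟩ := hE.sep _ hcE' _ hcE hne1
  have hKc : IsCompact ((V₁ ∪ V₂)ᶜ ×ˢ (Set.univ : Set P)) :=
    (hV₁.union hV₂).isClosed_compl.isCompact.prod isCompact_univ
  obtain ⟨W, hW, hW2⟩ := proper_near hE Φ x hx t _ hKc (fun p hp hpE => hp.1 (hcov hpE))
  rw [nhds_prod_eq, mem_prod_iff] at hW
  obtain ⟨N₁, hN₁, N₂, hN₂, hNW⟩ := hW
  obtain ⟨U, hU, hUN, hUc⟩ := hE.conn x N₁ hN₁
  obtain ⟨J, hJ, hJN, hJc⟩ := hP t N₂ hN₂
  set A : Set ((Eᶜ : Set T) × P) := inc E P ⁻¹' (U ×ˢ J) with hAdef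
  have hAl : A ∈ comap (inc E P) (𝓝 (x, t)) :=
    ⟨U ×ˢ J, by rw [nhds_prod_eq]; exact prod_mem_prod hU hJ, subset_rfl⟩
  have hApre : IsPreconnected A := by
    rw [← hemb.isInducing.isPreconnected_image]
    have : inc E P '' A = (U \ E) ×ˢ J := by
      rw [hAdef, Set.image_preimage_eq_inter_range]
      ext p
      rw [Set.mem_inter_iff, mem_range_inc, Set.mem_prod, Set.mem_prod, Set.mem_sdiff]
      tauto
    rw [this]
    exact hUc.prod hJc
  have himg : IsPreconnected ((fun q => (inc E P (Φ q)).1) '' A) :=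
    hApre.image _ (by
      have : Continuous (fun q : (Eᶜ : Set T) × P => (inc E P (Φ q)).1) :=
        continuous_fst.comp (hemb.continuous.comp Φ.continuous)
      exact this.continuousOn)
  have hsub : ((fun q => (inc E P (Φ q)).1) '' A) ⊆ V₁ ∪ V₂ := by
    rintro _ ⟨q, hq, rfl⟩
    have h1 := hW2 q (hNW ⟨hUN hq.1, hJN hq.2⟩)
    by_contra h2
    exact h1 ⟨h2, trivial⟩
  have hfreq : ∀ (V : Set T) (c : T × P), ClusterPt c l → IsOpen V → c.1 ∈ V →
      ∃ q ∈ A, (inc E P (Φ q)).1 ∈ V := by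
    intro V c hc hV hcV
    have h8 : (V ×ˢ (Set.univ : Set P)) ∈ 𝓝 c := by
      have : c = (c.1, c.2) := rfl
      rw [this, nhds_prod_eq]
      exact prod_mem_prod (hV.mem_nhds hcV) univ_mem
    have h9 : (fun q => inc E P (Φ q)) '' A ∈ l := image_mem_map hAl
    obtain ⟨z, hz1, hz2⟩ := (clusterPt_iff_nonempty.1 hc) h8 h9
    obtain ⟨q, hq, rfl⟩ := hz2
    exact ⟨q, hq, hz1.1⟩
  obtain ⟨q₁, hq₁, hq₁'⟩ := hfreq V₁ c' hc' hV₁ hc1
  obtain ⟨q₂, hq₂, hq₂'⟩ := hfreq V₂ c hc hV₂ hc2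
  rcases himg.subset_or_subset hV₁ hV₂ hdis hsub with h | h
  · exact Set.disjoint_left.1 hdis (h ⟨q₂, hq₂, rfl⟩) hq₂'
  · exact Set.disjoint_left.1 hdis hq₁' (h ⟨q₁, hq₁, rfl⟩)

/-- The extension of a level-preserving homeomorphism of `(T ∖ E) × P` to `T × P`. -/
noncomputable def ext (hE : GoodSet E) (Φ : ((Eᶜ : Set T) × P) ≃ₜ ((Eᶜ : Set T) × P)) :
    T × P → T × P :=
  (inc_dense (P := P) hE).extend (fun q => inc E P (Φ q))

theorem continuous_ext (hE : GoodSet E) (hP : GoodP P)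
    (Φ : ((Eᶜ : Set T) × P) ≃ₜ ((Eᶜ : Set T) × P)) (hΦ : ∀ q, (Φ q).2 = q.2) :
    Continuous (ext hE Φ) := by
  refine (inc_dense (P := P) hE).continuous_extend fun p => ?_
  by_cases hp : p.1 ∈ E
  · obtain ⟨y, -, hy⟩ := exists_limit hE hP Φ hΦ p.1 hp p.2
    exact ⟨_, hy⟩
  · obtain ⟨q, hq⟩ := mem_range_inc.2 hp
    refine ⟨inc E P (Φ q), ?_⟩
    rw [← hq, ← (inc_embedding (P := P) hE.closed).isInducing.nhds_eq_comap]
    exact ((inc_embedding (P := P) hE.closed).continuous.comp Φ.continuous).tendsto q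

theorem ext_inc (hE : GoodSet E) (Φ : ((Eᶜ : Set T) × P) ≃ₜ ((Eᶜ : Set T) × P))
    (q : (Eᶜ : Set T) × P) : ext hE Φ (inc E P q) = inc E P (Φ q) :=
  (inc_dense (P := P) hE).extend_eq
    ((inc_embedding (P := P) hE.closed).continuous.comp Φ.continuous) q

theorem ext_mem (hE : GoodSet E) (hP : GoodP P)
    (Φ : ((Eᶜ : Set T) × P) ≃ₜ ((Eᶜ : Set T) × P)) (hΦ : ∀ q, (Φ q).2 = q.2) (p : T × P)
    (hp : p.1 ∈ E) : (ext hE Φ p).1 ∈ E := by
  obtain ⟨y, hyE, hy⟩ := exists_limit hE hP Φ hΦ p.1 hp p.2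
  have : ext hE Φ p = (y, p.2) := (inc_dense (P := P) hE).extend_eq_of_tendsto hy
  rw [this]; exact hyE

theorem ext_not_mem (hE : GoodSet E) (Φ : ((Eᶜ : Set T) × P) ≃ₜ ((Eᶜ : Set T) × P))
    (p : T × P) (hp : p.1 ∉ E) : (ext hE Φ p).1 ∉ E := by
  obtain ⟨q, hq⟩ := mem_range_inc.2 hp
  rw [← hq, ext_inc]
  exact mem_range_inc.1 ⟨_, rfl⟩

theorem ext_snd (hE : GoodSet E) (hP : GoodP P)
    (Φ : ((Eᶜ : Set T) × P) ≃ₜ ((Eᶜ : Set T) × P)) (hΦ : ∀ q, (Φ q).2 = q.2) (p : T × P) :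
    (ext hE Φ p).2 = p.2 := by
  have h := DenseRange.equalizer (inc_dense (P := P) hE).dense
    (continuous_snd.comp (continuous_ext hE hP Φ hΦ)) (continuous_snd (X := T) (Y := P))
    (by funext q; simp only [Function.comp_apply]; rw [ext_inc]; exact hΦ q)
  exact congrFun h p

theorem ext_unique (hE : GoodSet E) {F G : T × P → T × P} (hF : Continuous F)
    (hG : Continuous G) (h : ∀ q, F (inc E P q) = G (inc E P q)) (p : T × P) : F p = G p :=
  congrFun (DenseRange.equalizer (inc_dense (P := P) hE).dense hF hG (funext h)) p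

theorem ext_comp (hE : GoodSet E) (hP : GoodP P)
    (Φ Ψ : ((Eᶜ : Set T) × P) ≃ₜ ((Eᶜ : Set T) × P)) (hΦ : ∀ q, (Φ q).2 = q.2)
    (hΨ : ∀ q, (Ψ q).2 = q.2) (p : T × P) :
    ext hE (Ψ.trans Φ) p = ext hE Φ (ext hE Ψ p) := by
  refine ext_unique hE (F := ext hE (Ψ.trans Φ)) (G := ext hE Φ ∘ ext hE Ψ)
    (continuous_ext hE hP _ (fun q => ?_)) ((continuous_ext hE hP _ hΦ).comp
      (continuous_ext hE hP _ hΨ)) (fun q => ?_) p
  · rw [Homeomorph.trans_apply, hΦ, hΨ]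
  · rw [Function.comp_apply, ext_inc, ext_inc, ext_inc]; rfl

theorem ext_refl (hE : GoodSet E) (hP : GoodP P) (p : T × P) :
    ext hE (Homeomorph.refl ((Eᶜ : Set T) × P)) p = p :=
  ext_unique hE (F := ext hE (Homeomorph.refl ((Eᶜ : Set T) × P))) (G := id)
    (continuous_ext hE hP _ (fun q => rfl)) continuous_id (fun q => by
      rw [ext_inc]; rfl) p

/-- The extension as a homeomorphism. -/
noncomputable def extHomeo (hE : GoodSet E) (hP : GoodP P)
    (Φ : ((Eᶜ : Set T) × P) ≃ₜ ((Eᶜ : Set T) × P)) (hΦ : ∀ q, (Φ q).2 = q.2) :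
    (T × P) ≃ₜ (T × P) where
  toFun := ext hE Φ
  invFun := ext hE Φ.symm
  left_inv := fun p => by
    have hs : ∀ q, (Φ.symm q).2 = q.2 := fun q => by
      have := hΦ (Φ.symm q); rw [Homeomorph.apply_symm_apply] at this; exact this.symm
    rw [← ext_comp hE hP Φ.symm Φ hs hΦ, Homeomorph.self_trans_symm]
    exact ext_refl hE hP p
  right_inv := fun p => by
    have hs : ∀ q, (Φ.symm q).2 = q.2 := fun q => by
      have := hΦ (Φ.symm q); rw [Homeomorph.apply_symm_apply] at this; exact this.symm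
    rw [← ext_comp hE hP Φ Φ.symm hΦ hs, Homeomorph.symm_trans_self]
    exact ext_refl hE hP p
  continuous_toFun := continuous_ext hE hP Φ hΦ
  continuous_invFun := by
    have hs : ∀ q, (Φ.symm q).2 = q.2 := fun q => by
      have := hΦ (Φ.symm q); rw [Homeomorph.apply_symm_apply] at this; exact this.symm
    exact continuous_ext hE hP Φ.symm hs

end Pool.Agent.H659R3.BigMCG
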