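import Pool.Agent.H659R3.BigMCG.Torus

/-! Lifting homeomorphisms and isotopies of `S` to `S'`. -/

set_option autoImplicit false

open Topology Filter unitInterval

namespace Pool.Agent.H659R3.BigMCG

theorem goodI : GoodP I := by
  intro t N hN
  have h1 : LocallyPathConnectedSpace I := (convex_Icc (0 : ℝ) 1).locallyPathConnectedSpace
  have h2 : LocallyConnectedSpace I := inferInstance
  obtain ⟨J, ⟨hJ1, hJ2, hJ3⟩, hJN⟩ :=
    (LocallyConnectedSpace.open_connected_basis t).mem_iff.1 hN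
  exact ⟨J, hJ1.mem_nhds hJ2, hJN, hJ3.isPreconnected⟩

/-- A level-preserving homeomorphism. -/
def LevelPres {X : Type} [TopologicalSpace X] (Φ : (X × I) ≃ₜ (X × I)) : Prop :=
  ∀ p, (Φ p).2 = p.2

theorem LevelPres.symm {X : Type} [TopologicalSpace X] {Φ : (X × I) ≃ₜ (X × I)}
    (h : LevelPres Φ) : LevelPres Φ.symm := fun q => by
  have := h (Φ.symm q); rw [Homeomorph.apply_symm_apply] at this; exact this.symm

/-- The extension to the torus, first component. -/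
noncomputable def slice (Φ : (SS × I) ≃ₜ (SS × I)) (x : Tor) (t : I) : Tor :=
  (ext (P := I) goodEE Φ (x, t)).1

theorem slice_cont {Φ : (SS × I) ≃ₜ (SS × I)} (hΦ : LevelPres Φ) :
    Continuous (fun p : Tor × I => slice Φ p.1 p.2) :=
  continuous_fst.comp (continuous_ext goodEE goodI Φ hΦ)

theorem slice_cont' {Φ : (SS × I) ≃ₜ (SS × I)} (hΦ : LevelPres Φ) {A : Type}
    [TopologicalSpace A] {f : A → Tor} {g : A → I} (hf : Continuous f) (hg : Continuous g) :
    Continuous (fun a => slice Φ (f a) (g a)) :=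
  (slice_cont hΦ).comp (hf.prodMk hg)

theorem slice_val (Φ : (SS × I) ≃ₜ (SS × I)) (x : SS) (t : I) :
    slice Φ x t = ((Φ (x, t)).1 : Tor) := by
  have := ext_inc (P := I) goodEE Φ (x, t)
  exact congrArg Prod.fst this

theorem ext_pair {Φ : (SS × I) ≃ₜ (SS × I)} (hΦ : LevelPres Φ) (x : Tor) (t : I) :
    ext (P := I) goodEE Φ (x, t) = (slice Φ x t, t) :=
  Prod.ext rfl (ext_snd goodEE goodI Φ hΦ (x, t))

theorem slice_comp {Φ Ψ : (SS × I) ≃ₜ (SS × I)} (hΦ : LevelPres Φ) (hΨ : LevelPres Ψ)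
    (x : Tor) (t : I) : slice (Ψ.trans Φ) x t = slice Φ (slice Ψ x t) t := by
  have := ext_comp goodEE goodI Φ Ψ hΦ hΨ (x, t)
  rw [ext_pair hΨ] at this
  exact congrArg Prod.fst this

theorem slice_refl (x : Tor) (t : I) : slice (Homeomorph.refl (SS × I)) x t = x :=
  congrArg Prod.fst (ext_refl goodEE goodI (x, t))

theorem slice_symm {Φ : (SS × I) ≃ₜ (SS × I)} (hΦ : LevelPres Φ) (x : Tor) (t : I) :
    slice Φ.symm (slice Φ x t) t = x := by
  rw [← slice_comp hΦ.symm hΦ, Homeomorph.self_trans_symm, slice_refl]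

theorem slice_mem {Φ : (SS × I) ≃ₜ (SS × I)} (hΦ : LevelPres Φ) {x : Tor} (t : I)
    (hx : x ∈ EE) : slice Φ x t ∈ EE :=
  ext_mem goodEE goodI Φ hΦ (x, t) hx

theorem slice_not_mem (Φ : (SS × I) ≃ₜ (SS × I)) {x : Tor} (t : I)
    (hx : x ∉ EE) : slice Φ x t ∉ EE :=
  ext_not_mem goodEE Φ (x, t) hx

theorem slice_zero {Φ : (SS × I) ≃ₜ (SS × I)} (hΦ : LevelPres Φ) (t : I) :
    slice Φ (pr 0) t = pr 0 := by
  refine fix_zero (u := fun x => slice Φ x t) (slice_cont' hΦ continuous_id continuous_const) ?_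
    (fun x hx => slice_mem hΦ t hx)
  intro x y hxy
  have h1 := slice_symm hΦ x t
  have h2 := slice_symm hΦ y t
  simp only at hxy
  rw [← h1, hxy, h2]

/-- Density: two continuous maps to the torus agreeing over `S'` agree. -/
theorem eq_of_SP {f g : ℂ → Tor} (hf : Continuous f) (hg : Continuous g)
    (h : ∀ z, pr z ∉ EE → f z = g z) (z : ℂ) : f z = g z := by
  have hd : Dense (pr ⁻¹' EE)ᶜ := preEE_countable.dense_compl ℝ
  have := Continuous.ext_on hd hf hg (fun z hz => h z hz)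
  exact congrFun this z

/-- The constant family of a homeomorphism. -/
noncomputable def constFam (h : SS ≃ₜ SS) : (SS × I) ≃ₜ (SS × I) := h.prodCongr (Homeomorph.refl I)

theorem constFam_level (h : SS ≃ₜ SS) : LevelPres (constFam h) := fun _ => rfl

theorem exists_lift (h : SS ≃ₜ SS) : ∃ H : C(ℂ, ℂ), H 0 = 0 ∧
    ∀ z, pr (H z) = slice (constFam h) (pr z) 0 := by
  let f : C(ℂ, Tor) := ⟨fun z => slice (constFam h) (pr z) 0,
    slice_cont' (constFam_level h) pr_cont continuous_const⟩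
  obtain ⟨F, ⟨h1, h2⟩, -⟩ := pr_cov.existsUnique_continuousMap_lifts f 0 0
    (slice_zero (constFam_level h) 0).symm
  exact ⟨F, h1, fun z => congrFun h2 z⟩

/-- The lift of `h` to the plane which fixes the origin. -/
noncomputable def Hl (h : SS ≃ₜ SS) : C(ℂ, ℂ) := (exists_lift h).choose

theorem Hl_zero (h : SS ≃ₜ SS) : Hl h 0 = 0 := (exists_lift h).choose_spec.1

theorem Hl_pr (h : SS ≃ₜ SS) (z : ℂ) : pr (Hl h z) = slice (constFam h) (pr z) 0 :=
  (exists_lift h).choose_spec.2 z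

theorem Hl_val (h : SS ≃ₜ SS) (z : ℂ) (hz : pr z ∉ EE) :
    pr (Hl h z) = ((h ⟨pr z, hz⟩ : SS) : Tor) := by
  rw [Hl_pr]
  exact slice_val (constFam h) ⟨pr z, hz⟩ 0

/-- Uniqueness of the lift. -/
theorem Hl_unique (h : SS ≃ₜ SS) {G : ℂ → ℂ} (hG : Continuous G) (h0 : G 0 = 0)
    (hp : ∀ z (hz : pr z ∉ EE), pr (G z) = ((h ⟨pr z, hz⟩ : SS) : Tor)) (z : ℂ) :
    G z = Hl h z := by
  have h1 : ∀ z, pr (G z) = pr (Hl h z) := by
    refine eq_of_SP (pr_cont.comp hG) (pr_cont.comp (Hl h).continuous) ?_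
    intro z hz
    rw [hp z hz, Hl_val h z hz]
  have := pr_cov.eq_of_comp_eq hG (Hl h).continuous (funext h1) 0 (by rw [h0, Hl_zero])
  exact congrFun this z

theorem Hl_not_mem (h : SS ≃ₜ SS) {z : ℂ} (hz : pr z ∉ EE) : pr (Hl h z) ∉ EE := by
  rw [Hl_val h z hz]; exact (h ⟨pr z, hz⟩).2

theorem Hl_mul (h₁ h₂ : SS ≃ₜ SS) (z : ℂ) : Hl (h₁ * h₂) z = Hl h₁ (Hl h₂ z) := by
  symm
  refine Hl_unique (h₁ * h₂) (G := fun z => Hl h₁ (Hl h₂ z)) (by fun_prop)
    (by simp only [Hl_zero]) ?_ z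
  intro z hz
  rw [Hl_val h₁ _ (Hl_not_mem h₂ hz)]
  have : (⟨pr (Hl h₂ z), Hl_not_mem h₂ hz⟩ : SS) = h₂ ⟨pr z, hz⟩ := Subtype.ext (Hl_val h₂ z hz)
  rw [this]; rfl

theorem Hl_one (z : ℂ) : Hl (1 : SS ≃ₜ SS) z = z :=
  (Hl_unique 1 (G := fun z => z) continuous_id rfl (fun _ _ => rfl) z).symm

/-- The lifted homeomorphism of `S'`. -/
noncomputable def F0 (h : SS ≃ₜ SS) : SP ≃ₜ SP where
  toFun := fun z => ⟨Hl h z, Hl_not_mem h z.2⟩
  invFun := fun z => ⟨Hl h⁻¹ z, Hl_not_mem h⁻¹ z.2⟩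
  left_inv := fun z => Subtype.ext (by
    show Hl h⁻¹ (Hl h z) = z
    rw [← Hl_mul, inv_mul_cancel, Hl_one])
  right_inv := fun z => Subtype.ext (by
    show Hl h (Hl h⁻¹ z) = z
    rw [← Hl_mul, mul_inv_cancel, Hl_one])
  continuous_toFun := by fun_prop
  continuous_invFun := by fun_prop

theorem F0_val (h : SS ≃ₜ SS) (z : SP) : ((F0 h z : SP) : ℂ) = Hl h z := rfl

theorem F0_mul (h₁ h₂ : SS ≃ₜ SS) : F0 (h₁ * h₂) = F0 h₁ * F0 h₂ := by
  ext z
  exact Hl_mul h₁ h₂ z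

theorem F0_one : F0 (1 : SS ≃ₜ SS) = 1 := by
  ext z
  exact Hl_one z

theorem F0_inv (h : SS ≃ₜ SS) : F0 h⁻¹ = (F0 h)⁻¹ := by
  rw [eq_inv_iff_mul_eq_one, ← F0_mul, inv_mul_cancel, F0_one]

/-- Orientation in terms of lifts: from `S` to the plane. -/
theorem orient_lift {h : SS ≃ₜ SS} (hh : PreservesOrientation h) {H : ℂ → ℂ}
    (hH : Continuous H) (hp : ∀ z (hz : pr z ∉ EE), pr (H z) = ((h ⟨pr z, hz⟩ : SS) : Tor))
    (z : ℂ) (hz : pr z ∉ EE) : OrientPresAt H z := by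
  obtain ⟨φ, hφ, hφ1, hφ2⟩ := exists_chart z hz
  obtain ⟨ψ, hψ, hψ1⟩ := OrientedSurface.cover (h ⟨pr z, hz⟩)
  have key := hh φ hφ ψ hψ _ hφ1 hψ1
  rw [hφ2] at key
  have hzt : z ∈ φ.target := by rw [← hφ2]; exact φ.map_source hφ1
  have hsz : φ.symm z = ⟨pr z, hz⟩ := by
    rw [← φ.left_inv hφ1, hφ2]
  have hc : ContinuousAt (ψ ∘ h ∘ φ.symm) z := by
    have a1 : ContinuousAt φ.symm z := φ.continuousAt_symm hzt
    have a2 : ContinuousAt h (φ.symm z) := h.continuous.continuousAt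
    have a3 : ContinuousAt ψ (h (φ.symm z)) := by rw [hsz]; exact ψ.continuousAt hψ1
    exact (a3.comp (f := h ∘ φ.symm) (a2.comp a1))
  have hev : ∀ᶠ w in 𝓝 z, pr (H w) = pr ((ψ ∘ h ∘ φ.symm) w) := by
    have hn : (φ.target ∩ φ.symm ⁻¹' (h ⁻¹' ψ.source)) ∈ 𝓝 z :=
      (φ.isOpen_inter_preimage_symm (ψ.open_source.preimage h.continuous)).mem_nhds
        ⟨hzt, by rw [Set.mem_preimage, hsz]; exact hψ1⟩
    filter_upwards [hn] with w hw
    have h1 : ((φ.symm w : SS) : Tor) = pr w := hφ w hw.1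
    have hw' : pr w ∉ EE := by rw [← h1]; exact (φ.symm w).2
    have h2 : φ.symm w = ⟨pr w, hw'⟩ := Subtype.ext h1
    have h3 := hψ (ψ (h (φ.symm w))) (ψ.map_source hw.2)
    rw [ψ.left_inv hw.2] at h3
    rw [hp w hw', Function.comp_apply, Function.comp_apply, ← h3, h2]
  exact (key.add_const _).congr (germ_const hH.continuousAt hc hev)

/-- Orientation in terms of lifts: from the plane to `S`. -/
theorem orient_descend {h : SS ≃ₜ SS} {H : ℂ → ℂ} (hH : Continuous H)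
    (hp : ∀ z (hz : pr z ∉ EE), pr (H z) = ((h ⟨pr z, hz⟩ : SS) : Tor))
    (ho : ∀ z, OrientPresAt H z) : PreservesOrientation h := by
  intro φ hφ ψ hψ x hx hx'
  have hzt : φ x ∈ φ.target := φ.map_source hx
  have hc : ContinuousAt (ψ ∘ h ∘ φ.symm) (φ x) := by
    have a1 : ContinuousAt φ.symm (φ x) := φ.continuousAt_symm hzt
    have a2 : ContinuousAt h (φ.symm (φ x)) := h.continuous.continuousAt
    have a3 : ContinuousAt ψ (h (φ.symm (φ x))) := by rw [φ.left_inv hx]; exact ψ.continuousAt hx'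
    exact (a3.comp (f := h ∘ φ.symm) (a2.comp a1))
  have hev : ∀ᶠ w in 𝓝 (φ x), pr ((ψ ∘ h ∘ φ.symm) w) = pr (H w) := by
    have hn : (φ.target ∩ φ.symm ⁻¹' (h ⁻¹' ψ.source)) ∈ 𝓝 (φ x) :=
      (φ.isOpen_inter_preimage_symm (ψ.open_source.preimage h.continuous)).mem_nhds
        ⟨hzt, by rw [Set.mem_preimage, Set.mem_preimage, φ.left_inv hx]; exact hx'⟩
    filter_upwards [hn] with w hw
    have h1 : ((φ.symm w : SS) : Tor) = pr w := hφ w hw.1
    have hw' : pr w ∉ EE := by rw [← h1]; exact (φ.symm w).2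
    have h2 : φ.symm w = ⟨pr w, hw'⟩ := Subtype.ext h1
    have h3 := hψ (ψ (h (φ.symm w))) (ψ.map_source hw.2)
    rw [ψ.left_inv hw.2] at h3
    rw [hp w hw', Function.comp_apply, Function.comp_apply, ← h3, h2]
  exact ((ho (φ x)).add_const _).congr (germ_const hc hH.continuousAt hev)

/-- Orientation on `S'`. -/
theorem orient_SP {h : SP ≃ₜ SP} {H : ℂ → ℂ} (hp : ∀ z : SP, ((h z : SP) : ℂ) = H z)
    (ho : ∀ z : ℂ, pr z ∉ EE → OrientPresAt H z) : PreservesOrientation h := by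
  rintro _ rfl _ rfl x hx hx'
  have hxE : pr (x : ℂ) ∉ EE := x.2
  refine (ho (x : ℂ) hxE).congr ?_
  have hn : incSP.target ∈ 𝓝 (incSP x) := incSP.open_target.mem_nhds (incSP.map_source hx)
  rw [incSP_apply] at hn
  filter_upwards [hn] with w hw
  show ((h (incSP.symm w) : SP) : ℂ) = H w
  rw [hp]
  congr 1
  exact incSP.right_inv hw

/-- The lifting homomorphism on orientation-preserving homeomorphisms. -/
noncomputable def Flift : HomeoPlus SS →* HomeoPlus SP where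
  toFun := fun h => ⟨F0 h, orient_SP (H := Hl h) (fun z => rfl)
      (fun z hz => orient_lift h.2.1 (Hl h).continuous (Hl_val h) z hz), by
    rw [← F0_inv]
    exact orient_SP (H := Hl (h : SS ≃ₜ SS)⁻¹) (fun z => rfl)
      (fun z hz => orient_lift h.2.2 (Hl _).continuous (Hl_val _) z hz)⟩
  map_one' := Subtype.ext F0_one
  map_mul' := fun a b => Subtype.ext (F0_mul a b)

theorem Flift_val (h : HomeoPlus SS) (z : SP) :
    (((Flift h : SP ≃ₜ SP) z : SP) : ℂ) = Hl (h : SS ≃ₜ SS) z := rfl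

section isotopy

variable {Φ : (SS × I) ≃ₜ (SS × I)}

theorem exists_isolift (hΦ : LevelPres Φ) (h0 : ∀ x, Φ (x, 0) = (x, 0)) :
    ∃ M : C(I × ℂ, ℂ), (∀ z, M (0, z) = z) ∧ ∀ t z, pr (M (t, z)) = slice Φ (pr z) t := by
  let G : C(I × ℂ, Tor) := ⟨fun p => slice Φ (pr p.2) p.1,
    slice_cont' hΦ (pr_cont.comp continuous_snd) continuous_fst⟩
  have hG0 : ∀ z : ℂ, G (0, z) = pr ((ContinuousMap.id ℂ) z) := by
    intro z
    show slice Φ (pr z) 0 = pr z
    refine eq_of_SP (f := fun z => slice Φ (pr z) 0) (g := pr)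
      (slice_cont' hΦ pr_cont continuous_const) pr_cont ?_ z
    intro z hz
    have := slice_val Φ ⟨pr z, hz⟩ 0
    rw [h0] at this
    exact this
  let M := pr_cov.liftHomotopy G (ContinuousMap.id ℂ) hG0
  refine ⟨M, fun z => pr_cov.liftHomotopy_zero G (ContinuousMap.id ℂ) hG0 z, fun t z => ?_⟩
  exact congrFun (pr_cov.liftHomotopy_lifts G (ContinuousMap.id ℂ) hG0) (t, z)

theorem isolift_zero (hΦ : LevelPres Φ) {M : C(I × ℂ, ℂ)} (hM0 : ∀ z, M (0, z) = z)
    (hM : ∀ t z, pr (M (t, z)) = slice Φ (pr z) t) (t : I) : M (t, 0) = 0 := by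
  have h1 : Continuous (fun t : I => M (t, 0)) := by fun_prop
  have := pr_cov.eq_of_comp_eq (g₁ := fun t : I => M (t, 0)) (g₂ := fun _ => 0) h1
    continuous_const (by
      funext t
      show pr (M (t, 0)) = pr 0
      rw [hM, slice_zero hΦ]) 0 (hM0 0)
  exact congrFun this t

theorem isolift_inv (hΦ : LevelPres Φ)
    {M M' : C(I × ℂ, ℂ)} (hM0 : ∀ z, M (0, z) = z)
    (hM : ∀ t z, pr (M (t, z)) = slice Φ (pr z) t) (hM0' : ∀ z, M' (0, z) = z)
    (hM' : ∀ t z, pr (M' (t, z)) = slice Φ.symm (pr z) t) (t : I) (z : ℂ) :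
    M' (t, M (t, z)) = z := by
  have := pr_cov.eq_of_comp_eq (g₁ := fun p : I × ℂ => M' (p.1, M p)) (g₂ := fun p => p.2)
    (by fun_prop) continuous_snd (by
      funext p
      obtain ⟨t, z⟩ := p
      show pr (M' (t, M (t, z))) = pr z
      rw [hM', hM, slice_symm hΦ]) (0, 0) (by simp [hM0, hM0'])
  exact congrFun this (t, z)

theorem isotopy_lift {h : SS ≃ₜ SS} (hh : IsotopicToId h) : IsotopicToId (F0 h) := by
  obtain ⟨Φ, hΦ, h0, h1⟩ := hh
  have hs : LevelPres Φ.symm := LevelPres.symm hΦ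
  have hs0 : ∀ x, Φ.symm (x, 0) = (x, 0) := fun x => by
    rw [Homeomorph.symm_apply_eq, h0]
  obtain ⟨M, hM0, hM⟩ := exists_isolift hΦ h0
  obtain ⟨M', hM0', hM'⟩ := exists_isolift hs hs0
  have hinv := isolift_inv hΦ hM0 hM hM0' hM'
  have hinv' := isolift_inv hs hM0' hM' hM0 (by rw [Homeomorph.symm_symm]; exact hM)
  have hmem : ∀ (t : I) (z : ℂ), pr z ∉ EE → pr (M (t, z)) ∉ EE := by
    intro t z hz; rw [hM]; exact slice_not_mem Φ t hz
  have hmem' : ∀ (t : I) (z : ℂ), pr z ∉ EE → pr (M' (t, z)) ∉ EE := by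
    intro t z hz; rw [hM']; exact slice_not_mem Φ.symm t hz
  refine ⟨{ toFun := fun p => (⟨M (p.2, (p.1 : ℂ)), hmem _ _ p.1.2⟩, p.2)
            invFun := fun p => (⟨M' (p.2, (p.1 : ℂ)), hmem' _ _ p.1.2⟩, p.2)
            left_inv := fun p => Prod.ext (Subtype.ext (hinv _ _)) rfl
            right_inv := fun p => Prod.ext (Subtype.ext (hinv' _ _)) rfl
            continuous_toFun := by fun_prop
            continuous_invFun := by fun_prop }, fun p => rfl, fun x => ?_, fun x => ?_⟩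
  · exact Prod.ext (Subtype.ext (hM0 _)) rfl
  · refine Prod.ext (Subtype.ext ?_) rfl
    show M (1, (x : ℂ)) = Hl h x
    refine Hl_unique h (G := fun z => M (1, z)) (by fun_prop) (isolift_zero hΦ hM0 hM 1) ?_ x
    intro z hz
    rw [hM]
    have := slice_val Φ ⟨pr z, hz⟩ 1
    rw [h1] at this
    exact this

end isotopy

/-- The homomorphism `Map(S) → Map(S')` given by lifting. -/
noncomputable def mapLift : Map SS →* Map SP :=
  QuotientGroup.map (HomeoZero SS) (HomeoZero SP) Flift (fun _ hh => isotopy_lift hh)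

theorem mapLift_mk (h : HomeoPlus SS) :
    mapLift (toMap h) = toMap (Flift h) := rfl

end Pool.Agent.H659R3.BigMCG
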