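import Pool.Agent.H659R3.BigMCG.Twist

/-! The surfaces `S` and `S'` have infinite type. -/

set_option autoImplicit false

open Topology Filter unitInterval

namespace Pool.Agent.H659R3.BigMCG

theorem not_fg {X : Type} [TopologicalSpace X] [PathConnectedSpace X]
    [LocallyPathConnectedSpace X]
    (H : ∀ K : Set X, IsCompact K → ∃ u : X → ℂ, Continuous u ∧ (∀ x, u x ≠ 0) ∧
      (∀ x ∈ K, u x = 1) ∧ ∃ c : ℝ → X, Continuous c ∧ (∀ t, c (t + 1) = c t) ∧
      HasWinding (fun t => u (c t)) 1) : InfiniteType X := by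
  intro x₀ hFG
  obtain ⟨A, hA⟩ := hFG
  -- representing paths
  have hrep : ∀ a : FundamentalGroup X x₀, ∃ γ : Path x₀ x₀,
      (Path.Homotopic.Quotient.mk γ : Path.Homotopic.Quotient x₀ x₀) = a := fun a =>
    Path.Homotopic.Quotient.mk_surjective a
  choose rep hrep using hrep
  obtain ⟨u, huc, hu0, hu1, c, hc, hcp, hw⟩ := H
    (insert x₀ (⋃ a ∈ (A : Set (FundamentalGroup X x₀)), Set.range (rep a))) (by
      refine IsCompact.insert ?_ x₀
      exact A.finite_toSet.isCompact_biUnion (fun a _ => isCompact_range (rep a).continuous))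
  let U : C(X, {z : ℂ // z ≠ 0}) := ⟨fun x => ⟨u x, hu0 x⟩, huc.subtype_mk _⟩
  -- the induced homomorphism is trivial
  have htriv : ∀ g : FundamentalGroup X x₀, FundamentalGroup.map U x₀ g = 1 := by
    intro g
    have hg : g ∈ Subgroup.closure (A : Set (FundamentalGroup X x₀)) := by rw [hA]; trivial
    have hle : Subgroup.closure (A : Set (FundamentalGroup X x₀)) ≤
        (FundamentalGroup.map U x₀).ker := by
      rw [Subgroup.closure_le]
      intro a ha
      rw [SetLike.mem_coe, MonoidHom.mem_ker]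
      have h1 : FundamentalGroup.map U x₀ a =
          (Path.Homotopic.Quotient.mk ((rep a).map U.continuous) :
            Path.Homotopic.Quotient (U x₀) (U x₀)) := by
        conv_lhs => rw [← hrep a]
        rfl
      rw [h1, FundamentalGroup.one_def]
      have h2 : (rep a).map U.continuous = Path.refl (U x₀) := by
        ext t
        show u (rep a t) = u x₀
        rw [hu1 _ (Set.mem_insert _ _), hu1 _ (Set.mem_insert_of_mem _ ?_)]
        exact Set.mem_biUnion ha ⟨t, rfl⟩
      rw [h2]; rfl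
    exact hle hg
  -- hence `u` has a continuous logarithm
  have hU0 : (fun z : ℂ ↦ (⟨_, z.exp_ne_zero⟩ : {z : ℂ // z ≠ 0})) 0 = U x₀ := by
    refine Subtype.ext ?_
    show Complex.exp 0 = u x₀
    rw [Complex.exp_zero, hu1 _ (Set.mem_insert _ _)]
  obtain ⟨L, ⟨-, hL⟩, -⟩ := cov_exp.existsUnique_continuousMap_lifts_of_range_le
    (f := U) (a₀ := x₀) (e₀ := (0 : ℂ)) hU0 (by
      rintro _ ⟨g, rfl⟩
      rw [htriv g]
      exact Subgroup.one_mem _)
  have hexp : ∀ x, Complex.exp (L x) = u x := fun x => congrArg Subtype.val (congrFun hL x)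
  have h0 : HasWinding (fun t => u (c t)) 0 :=
    ⟨fun t => L (c t), by fun_prop, fun t => hexp _, fun t => by simp [hcp]⟩
  exact absurd (h0.unique hw) (by norm_num)

/-- The function `m(y) = max 0 (2 - |y|)`. -/
noncomputable def mm (y : ℂ) : ℝ := max 0 (2 - ‖y‖)

theorem mm_cont : Continuous mm := by unfold mm; fun_prop

theorem mm_nonneg (y : ℂ) : 0 ≤ mm y := le_max_left _ _

/-- A nowhere zero function away from `1` and `-1`, equal to `1` outside the disc of radius `2`. -/
noncomputable def UU (y : ℂ) : ℂ := (y - mm y) / (y + mm y)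

theorem num_ne {y : ℂ} (h : y ≠ 1) : y - mm y ≠ 0 := by
  intro h0
  have h1 : y = mm y := sub_eq_zero.1 h0
  have h2 : ‖y‖ = mm y := by
    rw [h1, Complex.norm_real, Real.norm_of_nonneg (mm_nonneg _), ← h1]
  have h3 : mm y = 1 := by
    rcases le_or_gt (2 - ‖y‖) 0 with h4 | h4
    · have : mm y = 0 := max_eq_left h4
      rw [this] at h2; rw [h2] at h4; norm_num at h4
    · have : mm y = 2 - ‖y‖ := max_eq_right h4.le
      linarith
  exact h (by rw [h1, h3]; simp)

theorem den_ne {y : ℂ} (h : y ≠ -1) : y + mm y ≠ 0 := by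
  intro h0
  have h1 : -y = mm y := by linear_combination -h0
  have hm : mm (-y) = mm y := by unfold mm; rw [norm_neg]
  have h2 : (-y) - mm (-y) = 0 := by rw [hm, h1, sub_self]
  refine num_ne (y := -y) ?_ h2
  intro h3
  exact h (by rw [← h3, neg_neg])

theorem UU_far {y : ℂ} (h : 2 ≤ ‖y‖) : UU y = 1 := by
  have h1 : mm y = 0 := max_eq_left (by linarith)
  have h2 : y ≠ 0 := by rintro rfl; simp at h; linarith
  unfold UU
  rw [h1, Complex.ofReal_zero, sub_zero, add_zero, div_self h2]

theorem UU_ne {y : ℂ} (h : y ≠ 1) (h' : y ≠ -1) : UU y ≠ 0 :=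
  div_ne_zero (num_ne h) (den_ne h')

theorem UU_contAt {y : ℂ} (h' : y ≠ -1) : ContinuousAt UU y := by
  have h1 : Continuous (fun y : ℂ => ((mm y : ℝ) : ℂ)) := Complex.continuous_ofReal.comp mm_cont
  exact (continuous_id.sub h1).continuousAt.div (continuous_id.add h1).continuousAt (den_ne h')

/-- The winding number of `UU` along a small circle about `1`. -/
theorem UU_winding {r : ℝ} (hr : 0 < r) (hr1 : r < 1) :
    HasWinding (fun t => UU (1 + circ r t)) 1 := by
  have key := hasWinding_circ hr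
  have hn : ∀ t, ‖circ r t‖ = r := norm_circ hr.le
  have hc := continuous_circ r
  have hmc : Continuous (fun t => ((mm (1 + circ r t) : ℝ) : ℂ)) := by
    have := mm_cont
    fun_prop
  have hmv : ∀ t, mm (1 + circ r t) = 2 - ‖1 + circ r t‖ := by
    intro t
    refine max_eq_right ?_
    have := norm_add_le (1 : ℂ) (circ r t)
    rw [hn, norm_one] at this; linarith
  -- numerator
  have h1 : HasWinding (fun t => (1 + circ r t) - mm (1 + circ r t)) 1 := by
    refine key.of_slit hc (by fun_prop) (fun t => by simp only [circ_add_one]) (fun t => ?_)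
    have hne : circ r t ≠ 0 := key.ne_zero t
    rw [hmv]
    set w := circ r t with hw
    have hwn : ‖w‖ = r := hn t
    by_contra hns
    have hq : ∃ x : ℝ, x ≤ 0 ∧ ((1 + w) - ((2 - ‖1 + w‖ : ℝ) : ℂ)) / w = x := by
      rw [Complex.mem_slitPlane_iff, not_or] at hns
      push Not at hns
      refine ⟨(((1 + w) - ((2 - ‖1 + w‖ : ℝ) : ℂ)) / w).re, hns.1, ?_⟩
      exact Complex.ext (by simp) (by rw [hns.2]; simp)
    obtain ⟨x, hx, hq⟩ := hq
    rw [div_eq_iff hne] at hq
    have him := congrArg Complex.im hq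
    have hre := congrArg Complex.re hq
    simp at him hre
    have him' : w.im = 0 := by
      have : (1 - x) * w.im = 0 := by linarith
      rcases mul_eq_zero.1 this with h | h
      · linarith
      · exact h
    have hwr : w = (w.re : ℂ) := Complex.ext (by simp) (by simp [him'])
    have hab : |w.re| = r := by
      rw [← hwn, hwr, Complex.norm_real, Real.norm_eq_abs, Complex.ofReal_re]
    have hab' := abs_le.1 hab.le
    have hn1 : ‖1 + w‖ = 1 + w.re := by
      rw [hwr]
      have : (1 : ℂ) + (w.re : ℂ) = ((1 + w.re : ℝ) : ℂ) := by push_cast; ring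
      rw [this, Complex.norm_real, Real.norm_of_nonneg (by linarith), Complex.ofReal_re]
    rw [hn1] at hre
    have : (2 - x) * w.re = 0 := by linarith
    rcases mul_eq_zero.1 this with h | h
    · linarith
    · exact hne (Complex.ext h him')
  -- denominator
  have h2 : HasWinding (fun t => (1 + circ r t) + mm (1 + circ r t)) 0 := by
    refine hasWinding_zero_of_slit (by fun_prop) (fun t => by simp only [circ_add_one]) 1
      one_ne_zero (fun t => ?_)
    rw [div_one, Complex.mem_slitPlane_iff, hmv]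
    left
    have a1 := norm_add_le (1 : ℂ) (circ r t)
    rw [hn, norm_one] at a1
    have a2 := Complex.abs_re_le_norm (circ r t)
    rw [hn] at a2
    have a3 := (abs_le.1 a2).1
    rw [Complex.add_re, Complex.add_re, Complex.one_re, Complex.ofReal_re]
    linarith
  obtain ⟨L, hLc, hL, hLp⟩ := h1
  obtain ⟨M, hMc, hM, hMp⟩ := h2
  refine ⟨fun t => L t - M t, hLc.sub hMc, fun t => ?_, fun t => ?_⟩
  · rw [Complex.exp_sub, hL, hM]; rfl
  · show L (t + 1) - M (t + 1) = L t - M t + ((1 : ℤ) : ℂ) * (2 * Real.pi * Complex.I)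
    rw [hLp, hMp]; push_cast; ring

/-- The centre and half-distance of two consecutive punctures. -/
noncomputable def cj (j : ℕ) : ℂ := (aj j + aj (j + 1)) / 2
noncomputable def dj (j : ℕ) : ℂ := (aj j - aj (j + 1)) / 2

theorem dj_ne (j : ℕ) : dj j ≠ 0 := by
  intro h
  unfold dj at h
  have h1 : aj j - aj (j + 1) = 0 := by linear_combination 2 * h
  have := aj_inj (sub_eq_zero.1 h1)
  omega

/-- The function on the plane. -/
noncomputable def WW (j : ℕ) (z : ℂ) : ℂ := UU ((z - cj j) / dj j)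

theorem WW_far (j : ℕ) {z : ℂ} (h : 2 * ‖dj j‖ ≤ ‖z - cj j‖) : WW j z = 1 := by
  refine UU_far ?_
  rw [norm_div, le_div_iff₀ (norm_pos_iff.2 (dj_ne j))]
  exact h

theorem WW_arg_one (j : ℕ) {z : ℂ} : (z - cj j) / dj j = 1 ↔ z = aj j := by
  rw [div_eq_iff (dj_ne j)]
  unfold cj dj
  constructor
  · intro h; linear_combination h
  · rintro rfl; ring

theorem WW_arg_neg_one (j : ℕ) {z : ℂ} : (z - cj j) / dj j = -1 ↔ z = aj (j + 1) := by
  rw [div_eq_iff (dj_ne j)]
  unfold cj dj
  constructor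
  · intro h; linear_combination h
  · rintro rfl; ring

theorem WW_ne (j : ℕ) {z : ℂ} (h : z ≠ aj j) (h' : z ≠ aj (j + 1)) : WW j z ≠ 0 :=
  UU_ne (fun e => h ((WW_arg_one j).1 e)) (fun e => h' ((WW_arg_neg_one j).1 e))

theorem WW_cont (j : ℕ) {z : ℂ} (h' : z ≠ aj (j + 1)) : ContinuousAt (WW j) z := by
  unfold WW
  have h1 : ContinuousAt (fun z : ℂ => (z - cj j) / dj j) z := by
    have := dj_ne j
    fun_prop (disch := assumption)
  exact ContinuousAt.comp (g := UU) (UU_contAt (fun e => h' ((WW_arg_neg_one j).1 e))) h1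

/-- The function on the torus. -/
noncomputable def uT (j : ℕ) (x : Tor) : ℂ :=
  open Classical in
  if h : ∃ z ∈ Metric.ball (cj j) (2 * ‖dj j‖), pr z = x then WW j h.choose else 1

theorem uT_eq (j : ℕ) (hj : 2 * ‖dj j‖ ≤ 1 / 4) {z : ℂ} (hz : z ∈ Metric.ball (cj j) (1 / 2)) :
    uT j (pr z) = WW j z := by
  classical
  unfold uT
  split_ifs with h
  · have h1 := h.choose_spec.1
    have h2 := h.choose_spec.2
    have h3 : h.choose = z := by
      rw [pr_eq] at h2
      have : z - h.choose = 0 := by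
        refine lat_small h2 ?_
        rw [Metric.mem_ball, dist_eq_norm] at h1 hz
        have : z - h.choose = (z - cj j) - (h.choose - cj j) := by ring
        rw [this]
        refine (norm_sub_le _ _).trans_lt ?_
        linarith
      exact (sub_eq_zero.1 this).symm
    rw [h3]
  · symm
    refine WW_far j ?_
    by_contra hlt
    push Not at hlt
    exact h ⟨z, by rw [Metric.mem_ball, dist_eq_norm]; exact hlt, rfl⟩

theorem uT_far (j : ℕ) {x : Tor} (h : x ∉ pr '' Metric.ball (cj j) (2 * ‖dj j‖)) :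
    uT j x = 1 := by
  classical
  unfold uT
  rw [dif_neg]
  rintro ⟨z, hz, hx⟩
  exact h ⟨z, hz, hx⟩

theorem uT_spec (j : ℕ) (hj : 2 * ‖dj j‖ ≤ 1 / 4) {x : Tor} (hx : x ∉ EE) :
    ContinuousAt (uT j) x ∧ uT j x ≠ 0 := by
  by_cases h : x ∈ pr '' Metric.ball (cj j) (1 / 2)
  · obtain ⟨z, hz, rfl⟩ := h
    have hz1 : z ≠ aj j := by rintro rfl; exact hx (aj_mem_EE j)
    have hz2 : z ≠ aj (j + 1) := by rintro rfl; exact hx (aj_mem_EE (j + 1))
    constructor
    · unfold ContinuousAt
      rw [← pr_nhds, tendsto_map'_iff, uT_eq j hj hz]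
      refine (WW_cont j hz2).congr' ?_
      filter_upwards [Metric.isOpen_ball.mem_nhds hz] with w hw
      exact (uT_eq j hj hw).symm
    · rw [uT_eq j hj hz]; exact WW_ne j hz1 hz2
  · have hsub : pr '' Metric.ball (cj j) (2 * ‖dj j‖) ⊆ pr '' Metric.closedBall (cj j) (1 / 4) :=
      Set.image_mono ((Metric.ball_subset_closedBall).trans (Metric.closedBall_subset_closedBall hj))
    have hcl : IsClosed (pr '' Metric.closedBall (cj j) (1 / 4)) :=
      ((isCompact_closedBall _ _).image pr_cont).isClosed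
    have hxc : x ∉ pr '' Metric.closedBall (cj j) (1 / 4) := by
      rintro ⟨z, hz, rfl⟩
      exact h ⟨z, Metric.closedBall_subset_ball (by norm_num) hz, rfl⟩
    constructor
    · have hev : uT j =ᶠ[𝓝 x] fun _ => 1 := by
        filter_upwards [hcl.isOpen_compl.mem_nhds hxc] with y hy
        exact uT_far j (fun hy' => hy (hsub hy'))
      exact continuousAt_const.congr hev.symm
    · rw [uT_far j (fun hy' => hxc (hsub hy'))]; exact one_ne_zero

theorem dj_norm_tendsto : Tendsto (fun j => cj j) atTop (𝓝 0) ∧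
    Tendsto (fun j => ‖dj j‖) atTop (𝓝 0) := by
  have h1 := aj_tendsto
  have h2 : Tendsto (fun j => aj (j + 1)) atTop (𝓝 0) := h1.comp (tendsto_add_atTop_nat 1)
  constructor
  · have := (h1.add h2).div_const 2
    simpa [cj] using this
  · have := ((h1.sub h2).div_const 2).norm
    simpa [dj] using this

theorem dj_small (j : ℕ) : 2 * ‖dj j‖ ≤ 1 / 4 := by
  have h1 : dj j = (((1 / (j + 4 : ℝ) - 1 / ((j + 1 : ℕ) + 4 : ℝ)) / 2 : ℝ) : ℂ) := by
    unfold dj aj; push_cast; ring
  rw [h1, Complex.norm_real, Real.norm_eq_abs]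
  have h2 : 1 / (j + 4 : ℝ) ≤ 1 / 4 := by
    apply one_div_le_one_div_of_le (by norm_num)
    have : (0 : ℝ) ≤ j := Nat.cast_nonneg j
    linarith
  have h3 : 0 < 1 / ((j + 1 : ℕ) + 4 : ℝ) := by positivity
  have h4 : 0 < 1 / (j + 4 : ℝ) := by positivity
  have h5 : 1 / ((j + 1 : ℕ) + 4 : ℝ) ≤ 1 / (j + 4 : ℝ) := by
    apply one_div_le_one_div_of_le (by positivity)
    push_cast; linarith
  rw [abs_of_nonneg (by linarith)]
  linarith

/-- The punctured disc loops. -/
theorem exists_loop (j : ℕ) : ∃ c : ℝ → ℂ, Continuous c ∧ (∀ t, c (t + 1) = c t) ∧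
    (∀ t, pr (c t) ∉ EE) ∧ HasWinding (fun t => uT j (pr (c t))) 1 := by
  -- the other punctures stay away from `a_j`
  have hcl := EE_diff_closed j
  have hopen : IsOpen (pr ⁻¹' (EE \ {pr (aj j)})ᶜ) := hcl.isOpen_compl.preimage pr_cont
  have hmem : aj j ∈ pr ⁻¹' (EE \ {pr (aj j)})ᶜ := fun h => h.2 rfl
  obtain ⟨ε, hε, hball⟩ := Metric.isOpen_iff.1 hopen _ hmem
  have hd : 0 < ‖dj j‖ := norm_pos_iff.2 (dj_ne j)
  obtain ⟨r, hr, hr1, hrε⟩ : ∃ r : ℝ, 0 < r ∧ r < 1 ∧ r * ‖dj j‖ < ε := by
    refine ⟨min (1 / 2) (ε / (2 * ‖dj j‖)), by positivity,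
      (min_le_left _ _).trans_lt (by norm_num), ?_⟩
    calc min (1 / 2) (ε / (2 * ‖dj j‖)) * ‖dj j‖ ≤ ε / (2 * ‖dj j‖) * ‖dj j‖ :=
          mul_le_mul_of_nonneg_right (min_le_right _ _) hd.le
      _ = ε / 2 := by field_simp
      _ < ε := half_lt_self hε
  have hcn : ∀ t, ‖circ r t‖ = r := norm_circ hr.le
  have hcirc := continuous_circ r
  have hsmall := dj_small j
  have hbig : ∀ t, cj j + dj j * (1 + circ r t) ∈ Metric.ball (cj j) (1 / 2) := by
    intro t
    rw [Metric.mem_ball, dist_eq_norm, add_sub_cancel_left, norm_mul]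
    have h1 := norm_add_le (1 : ℂ) (circ r t)
    rw [hcn, norm_one] at h1
    have : ‖dj j‖ * ‖1 + circ r t‖ ≤ ‖dj j‖ * 2 :=
      mul_le_mul_of_nonneg_left (by linarith) hd.le
    linarith
  refine ⟨fun t => cj j + dj j * (1 + circ r t), by fun_prop, fun t => by
    simp only [circ_add_one], fun t ht => ?_, ?_⟩
  · have haj : cj j + dj j * (1 + circ r t) = aj j + dj j * circ r t := by
      unfold cj dj; ring
    have h1 : cj j + dj j * (1 + circ r t) ∈ Metric.ball (aj j) ε := by
      rw [haj, Metric.mem_ball, dist_eq_norm, add_sub_cancel_left, norm_mul, hcn, mul_comm]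
      exact hrε
    have h2 := hball h1
    have h3 : pr (cj j + dj j * (1 + circ r t)) = pr (aj j) := by
      by_contra h; exact h2 ⟨ht, h⟩
    rw [pr_eq, haj] at h3
    have h4 : aj j - (aj j + dj j * circ r t) = 0 := by
      refine lat_small h3 ?_
      have : aj j - (aj j + dj j * circ r t) = -(dj j * circ r t) := by ring
      rw [this, norm_neg, norm_mul, hcn]
      nlinarith
    have h5 : dj j * circ r t = 0 := by linear_combination -h4
    rcases mul_eq_zero.1 h5 with h | h
    · exact dj_ne j h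
    · have := hcn t
      rw [h, norm_zero] at this; linarith
  · have h1 : (fun t => uT j (pr (cj j + dj j * (1 + circ r t)))) =
        fun t => UU (1 + circ r t) := by
      funext t
      rw [uT_eq j hsmall (hbig t)]
      unfold WW
      rw [add_sub_cancel_left, mul_div_cancel_left₀ _ (dj_ne j)]
    rw [h1]
    exact UU_winding hr hr1

/-- For a compact set of non-punctures there is a `j` whose disc avoids it. -/
theorem exists_avoid (K : Set Tor) (hK : IsCompact K) (hKE : ∀ x ∈ K, x ∉ EE) :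
    ∃ j : ℕ, ∀ x ∈ K, uT j x = 1 := by
  have h1 : IsOpen (pr ⁻¹' Kᶜ) := hK.isClosed.isOpen_compl.preimage pr_cont
  have h2 : (0 : ℂ) ∈ pr ⁻¹' Kᶜ := fun h => hKE _ h zero_mem_EE
  obtain ⟨ε, hε, hball⟩ := Metric.isOpen_iff.1 h1 _ h2
  obtain ⟨ha, hb⟩ := dj_norm_tendsto
  have h3 : ∀ᶠ j in atTop, ‖cj j‖ < ε / 2 := by
    have := ha.norm
    rw [norm_zero] at this
    exact this.eventually (gt_mem_nhds (by positivity))
  have h4 : ∀ᶠ j in atTop, ‖dj j‖ < ε / 4 := hb.eventually (gt_mem_nhds (by positivity))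
  obtain ⟨j, hj1, hj2⟩ := (h3.and h4).exists
  refine ⟨j, fun x hx => uT_far j ?_⟩
  rintro ⟨z, hz, rfl⟩
  refine hball ?_ hx
  rw [Metric.mem_ball, dist_eq_norm] at hz
  rw [mem_ball_zero_iff]
  have : z = (z - cj j) + cj j := by ring
  rw [this]
  refine (norm_add_le _ _).trans_lt ?_
  linarith

instance : LocallyPathConnectedSpace Tor :=
  (pr_cov.isQuotientMap pr_surj).locallyPathConnectedSpace

instance : LocallyPathConnectedSpace SS := EE_closed.isOpen_compl.locallyPathConnectedSpace

instance : LocallyPathConnectedSpace SP := SP_open.locallyPathConnectedSpace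

instance : PathConnectedSpace SS := PathConnectedSpace.of_locallyPathConnectedSpace

instance : PathConnectedSpace SP := PathConnectedSpace.of_locallyPathConnectedSpace

theorem SS_infiniteType : InfiniteType SS := by
  refine not_fg fun K hK => ?_
  obtain ⟨j, hj⟩ := exists_avoid (Subtype.val '' K) (hK.image continuous_subtype_val)
    (by rintro _ ⟨x, -, rfl⟩; exact x.2)
  obtain ⟨c, hc1, hc2, hc3, hc4⟩ := exists_loop j
  refine ⟨fun x => uT j x, ?_, fun x => (uT_spec j (dj_small j) x.2).2,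
    fun x hx => hj _ ⟨x, hx, rfl⟩, fun t => ⟨pr (c t), hc3 t⟩, ?_, fun t => ?_, hc4⟩
  · rw [continuous_iff_continuousAt]
    intro x
    exact (uT_spec j (dj_small j) x.2).1.comp continuous_subtype_val.continuousAt
  · exact (pr_cont.comp hc1).subtype_mk _
  · simp only [hc2]

theorem SP_infiniteType : InfiniteType SP := by
  refine not_fg fun K hK => ?_
  have hc : Continuous (fun x : SP => pr x) := pr_cont.comp continuous_subtype_val
  obtain ⟨j, hj⟩ := exists_avoid ((fun x : SP => pr x) '' K) (hK.image hc)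
    (by rintro _ ⟨x, -, rfl⟩; exact x.2)
  obtain ⟨c, hc1, hc2, hc3, hc4⟩ := exists_loop j
  refine ⟨fun x => uT j (pr x), ?_, fun x => (uT_spec j (dj_small j) x.2).2,
    fun x hx => hj _ ⟨x, hx, rfl⟩, fun t => ⟨c t, hc3 t⟩, hc1.subtype_mk _, fun t => ?_, hc4⟩
  · rw [continuous_iff_continuousAt]
    intro x
    exact ContinuousAt.comp (g := uT j) (f := fun x : SP => pr x)
      (uT_spec j (dj_small j) x.2).1 hc.continuousAt
  · simp only [hc2]

end Pool.Agent.H659R3.BigMCG
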