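import Pool.Agent.H659R3.BigMCG.Defs
import Pool.Agent.H659R3.BigMCG.Ext

/-! The torus `ℂ / (ℤ + iℤ)`, the sequence of punctures `a_j → 0`, and the surfaces `S`, `S'`. -/

set_option autoImplicit false

open Topology Filter unitInterval

namespace Pool.Agent.H659R3.BigMCG

/-- The lattice `ℤ + iℤ`. -/
def Lat : AddSubgroup ℂ where
  carrier := {z | ∃ m n : ℤ, z = m + n * Complex.I}
  zero_mem' := ⟨0, 0, by simp⟩
  add_mem' := by
    rintro _ _ ⟨m, n, rfl⟩ ⟨m', n', rfl⟩
    exact ⟨m + m', n + n', by push_cast; ring⟩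
  neg_mem' := by
    rintro _ ⟨m, n, rfl⟩
    exact ⟨-m, -n, by push_cast; ring⟩

theorem mem_Lat {z : ℂ} : z ∈ Lat ↔ ∃ m n : ℤ, z = m + n * Complex.I := Iff.rfl

theorem lat_re_im {z : ℂ} : z ∈ Lat ↔ ∃ m n : ℤ, z.re = m ∧ z.im = n := by
  rw [mem_Lat]
  constructor
  · rintro ⟨m, n, rfl⟩; exact ⟨m, n, by simp, by simp⟩
  · rintro ⟨m, n, h1, h2⟩; exact ⟨m, n, Complex.ext (by simp [h1]) (by simp [h2])⟩

/-- A lattice vector of norm less than one vanishes. -/
theorem lat_small {z : ℂ} (hz : z ∈ Lat) (h : ‖z‖ < 1) : z = 0 := by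
  obtain ⟨m, n, h1, h2⟩ := lat_re_im.1 hz
  have h3 := (Complex.abs_re_le_norm z).trans_lt h
  have h4 := (Complex.abs_im_le_norm z).trans_lt h
  rw [h1] at h3; rw [h2] at h4
  have h5 : m = 0 := by
    rw [← Int.cast_abs] at h3
    have : |m| < 1 := by exact_mod_cast h3
    exact Int.abs_lt_one_iff.1 this
  have h6 : n = 0 := by
    rw [← Int.cast_abs] at h4
    have : |n| < 1 := by exact_mod_cast h4
    exact Int.abs_lt_one_iff.1 this
  exact Complex.ext (by simp [h1, h5]) (by simp [h2, h6])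

instance : DiscreteTopology Lat := by
  refine DiscreteTopology.of_forall_le_dist (r := 1) one_pos ?_
  intro x y hxy
  by_contra h
  push Not at h
  have h1 : ‖((x : ℂ) - y)‖ < 1 := by rwa [← dist_eq_norm]
  have h2 : (x : ℂ) - y = 0 := lat_small (Lat.sub_mem x.2 y.2) h1
  exact hxy (Subtype.ext (sub_eq_zero.1 h2))

theorem lat_discrete : IsDiscrete (Lat : Set ℂ) := ⟨inferInstanceAs (DiscreteTopology Lat)⟩

instance latClosed : IsClosed (Lat : Set ℂ) := AddSubgroup.isClosed_of_discrete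

theorem lat_countable : (Lat : Set ℂ).Countable := by
  have : (Lat : Set ℂ) = Set.range (fun p : ℤ × ℤ => (p.1 : ℂ) + p.2 * Complex.I) := by
    ext z
    constructor
    · rintro ⟨m, n, rfl⟩; exact ⟨(m, n), rfl⟩
    · rintro ⟨⟨m, n⟩, rfl⟩; exact ⟨m, n, rfl⟩
  rw [this]
  exact Set.countable_range _

/-- The torus. -/
abbrev Tor : Type := ℂ ⧸ Lat

/-- The projection `ℂ → Tor`. -/
def pr (z : ℂ) : Tor := QuotientAddGroup.mk z

theorem pr_eq {z w : ℂ} : pr z = pr w ↔ w - z ∈ Lat := by
  unfold pr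
  rw [QuotientAddGroup.eq, neg_add_eq_sub]

theorem pr_add {z v : ℂ} (hv : v ∈ Lat) : pr (z + v) = pr z := by
  rw [eq_comm, pr_eq, add_sub_cancel_left]; exact hv

theorem pr_surj (x : Tor) : ∃ z, pr z = x := QuotientAddGroup.mk_surjective x

theorem pr_cov : IsCoveringMap pr :=
  (AddSubgroup.isAddQuotientCoveringMap_of_comm Lat lat_discrete).isCoveringMap

theorem pr_cont : Continuous pr := pr_cov.continuous

theorem pr_open : IsOpenMap pr := pr_cov.isOpenMap

theorem pr_nhds (z : ℂ) : map pr (𝓝 z) = 𝓝 (pr z) :=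
  pr_open.map_nhds_eq pr_cont.continuousAt

/-- Every point of the torus is represented in the unit square. -/
theorem exists_rep (x : Tor) : ∃ z : ℂ, pr z = x ∧ 0 ≤ z.re ∧ z.re < 1 ∧ 0 ≤ z.im ∧ z.im < 1 := by
  obtain ⟨w, rfl⟩ := pr_surj x
  refine ⟨w - ((⌊w.re⌋ : ℂ) + ⌊w.im⌋ * Complex.I), ?_, ?_, ?_, ?_, ?_⟩
  · rw [pr_eq, sub_sub_cancel]
    exact ⟨_, _, rfl⟩
  · simp
  · have := Int.fract_lt_one w.re; simpa using this
  · simp
  · have := Int.fract_lt_one w.im; simpa using this

instance : CompactSpace Tor := by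
  constructor
  have h1 : IsCompact (pr '' (Metric.closedBall 0 2)) :=
    (isCompact_closedBall (0 : ℂ) 2).image pr_cont
  convert h1
  symm
  rw [Set.eq_univ_iff_forall]
  intro x
  obtain ⟨z, hz, h1, h2, h3, h4⟩ := exists_rep x
  refine ⟨z, ?_, hz⟩
  rw [mem_closedBall_zero_iff]
  refine (Complex.norm_le_abs_re_add_abs_im z).trans ?_
  rw [abs_of_nonneg h1, abs_of_nonneg h3]
  linarith

instance : T2Space Tor := inferInstance

/-- The punctures `a_j = 1 / (j + 4)`. -/
noncomputable def aj (j : ℕ) : ℂ := ((1 / (j + 4 : ℝ) : ℝ) : ℂ)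

theorem aj_re (j : ℕ) : (aj j).re = 1 / (j + 4 : ℝ) := Complex.ofReal_re _

theorem aj_im (j : ℕ) : (aj j).im = 0 := Complex.ofReal_im _

theorem aj_pos (j : ℕ) : 0 < (aj j).re := by rw [aj_re]; positivity

theorem aj_le (j : ℕ) : (aj j).re ≤ 1 / 4 := by
  rw [aj_re]
  apply one_div_le_one_div_of_le (by norm_num)
  have : (0 : ℝ) ≤ j := Nat.cast_nonneg j
  linarith

theorem aj_tendsto : Tendsto aj atTop (𝓝 0) := by
  have h1 : Tendsto (fun j : ℕ => (1 / (j + 4 : ℝ) : ℝ)) atTop (𝓝 0) := by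
    have h2 : Tendsto (fun j : ℕ => (j : ℝ) + 4) atTop atTop :=
      tendsto_atTop_add_const_right _ _ tendsto_natCast_atTop_atTop
    have h3 := h2.inv_tendsto_atTop
    refine h3.congr fun j => ?_
    rw [Pi.inv_apply, one_div]
  have h4 := (Complex.continuous_ofReal.tendsto 0).comp h1
  rw [Complex.ofReal_zero] at h4
  exact h4

theorem aj_inj {i j : ℕ} (h : aj i = aj j) : i = j := by
  have h1 : (aj i).re = (aj j).re := by rw [h]
  rw [aj_re, aj_re] at h1
  have h3 : (i : ℝ) + 4 = j + 4 := by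
    have := congrArg (fun x : ℝ => 1 / x) h1
    simpa using this
  exact_mod_cast add_right_cancel h3

/-- The punctures in the plane (a fundamental set). -/
def E0 : Set ℂ := insert 0 (Set.range aj)

theorem E0_re {z : ℂ} (hz : z ∈ E0) : 0 ≤ z.re ∧ z.re ≤ 1 / 4 ∧ z.im = 0 := by
  rcases hz with rfl | ⟨j, rfl⟩
  · simp
  · exact ⟨(aj_pos j).le, aj_le j, aj_im j⟩

theorem E0_inj {z w : ℂ} (hz : z ∈ E0) (hw : w ∈ E0) (h : pr z = pr w) : z = w := by
  rw [pr_eq] at h
  obtain ⟨h1, h2, h3⟩ := E0_re hz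
  obtain ⟨k1, k2, k3⟩ := E0_re hw
  have : w - z = 0 := by
    refine lat_small h ?_
    refine (Complex.norm_le_abs_re_add_abs_im _).trans_lt ?_
    rw [Complex.sub_re, Complex.sub_im, h3, k3, sub_self, abs_zero, add_zero, abs_lt]
    constructor <;> linarith
  exact (sub_eq_zero.1 this).symm

theorem E0_compact : IsCompact E0 := aj_tendsto.isCompact_insert_range

theorem E0_countable : E0.Countable := (Set.countable_range _).insert _

/-- The punctures of the torus. -/
def EE : Set Tor := pr '' E0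

theorem EE_closed : IsClosed EE := (E0_compact.image pr_cont).isClosed

theorem mem_EE {z : ℂ} : pr z ∈ EE ↔ ∃ e ∈ E0, ∃ v ∈ Lat, z = e + v := by
  constructor
  · rintro ⟨e, he, h⟩
    rw [pr_eq] at h
    exact ⟨e, he, z - e, h, by ring⟩
  · rintro ⟨e, he, v, hv, rfl⟩
    exact ⟨e, he, (pr_add hv).symm⟩

theorem zero_mem_EE : pr 0 ∈ EE := ⟨0, Set.mem_insert _ _, rfl⟩

theorem aj_mem_EE (j : ℕ) : pr (aj j) ∈ EE := ⟨aj j, Set.mem_insert_of_mem _ ⟨j, rfl⟩, rfl⟩

theorem lat_mem_EE {v : ℂ} (hv : v ∈ Lat) : pr v ∈ EE := by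
  rw [mem_EE]; exact ⟨0, Set.mem_insert _ _, v, hv, by simp⟩

/-- The preimage of the punctures in the plane is countable. -/
theorem preEE_countable : (pr ⁻¹' EE).Countable := by
  have : pr ⁻¹' EE = Set.image2 (fun e v => e + v) E0 Lat := by
    ext z
    rw [Set.mem_preimage, mem_EE, Set.mem_image2]
    constructor
    · rintro ⟨e, he, v, hv, rfl⟩; exact ⟨e, he, v, hv, rfl⟩
    · rintro ⟨e, he, v, hv, rfl⟩; exact ⟨e, he, v, hv, rfl⟩
  rw [this]
  exact E0_countable.image2 lat_countable _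

theorem one_lt_rank : 1 < Module.rank ℝ ℂ := by
  rw [Complex.rank_real_complex]; exact_mod_cast one_lt_two

/-- A disc minus a countable set is connected. -/
theorem ball_diff_preconnected (c : ℂ) (r : ℝ) (hr : 0 < r) {A : Set ℂ} (hA : A.Countable) :
    IsPreconnected (Metric.ball c r \ A) := by
  let e := OpenPartialHomeomorph.univBall c r
  have hsrc : e.source = Set.univ := OpenPartialHomeomorph.univBall_source c r
  have htgt : e.target = Metric.ball c r := OpenPartialHomeomorph.univBall_target c hr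
  have h1 : (e ⁻¹' A).Countable := hA.preimage_of_injOn (by
    intro x _ y _ hxy
    exact e.injOn (by rw [hsrc]; trivial) (by rw [hsrc]; trivial) hxy)
  have h2 : IsPreconnected (e ⁻¹' A)ᶜ :=
    (h1.isPathConnected_compl_of_one_lt_rank one_lt_rank).isConnected.isPreconnected
  have h3 : e '' (e ⁻¹' A)ᶜ = Metric.ball c r \ A := by
    ext z
    constructor
    · rintro ⟨w, hw, rfl⟩
      refine ⟨?_, hw⟩
      rw [← htgt]; exact e.map_source (by rw [hsrc]; trivial)
    · rintro ⟨hz, hzA⟩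
      rw [← htgt] at hz
      refine ⟨e.symm z, ?_, e.right_inv hz⟩
      rw [Set.mem_compl_iff, Set.mem_preimage, e.right_inv hz]; exact hzA
  rw [← h3]
  refine h2.image _ ?_
  have : ContinuousOn e e.source := e.continuousOn
  rw [hsrc] at this
  exact this.mono (Set.subset_univ _)

/-- Each `pr (a_j)` is isolated in `EE`. -/
theorem EE_diff_closed (j : ℕ) : IsClosed (EE \ {pr (aj j)}) := by
  let b : ℕ → ℂ := fun i => if i = j then 0 else aj i
  have hb : Tendsto b atTop (𝓝 0) := by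
    refine (tendsto_congr' ?_).1 aj_tendsto
    filter_upwards [eventually_gt_atTop j] with i hi
    simp [b, (ne_of_gt hi)]
  have h1 : EE \ {pr (aj j)} = pr '' (insert 0 (Set.range b)) := by
    ext x
    constructor
    · rintro ⟨⟨e, he, rfl⟩, hx⟩
      refine ⟨e, ?_, rfl⟩
      rcases he with rfl | ⟨i, rfl⟩
      · exact Set.mem_insert _ _
      · refine Set.mem_insert_of_mem _ ⟨i, ?_⟩
        have : i ≠ j := by rintro rfl; exact hx rfl
        simp [b, this]
    · rintro ⟨e, he, rfl⟩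
      have hne0 : pr 0 ≠ pr (aj j) := by
        intro h
        have := E0_inj (Set.mem_insert _ _) (Set.mem_insert_of_mem _ ⟨j, rfl⟩) h
        have h2 := aj_pos j
        rw [← this] at h2; simp at h2
      rcases he with rfl | ⟨i, rfl⟩
      · exact ⟨zero_mem_EE, hne0⟩
      · by_cases hij : i = j
        · simp only [b, hij, if_true]; exact ⟨zero_mem_EE, hne0⟩
        · simp only [b, hij, if_false]
          refine ⟨aj_mem_EE i, ?_⟩
          intro h
          exact hij (aj_inj (E0_inj (Set.mem_insert_of_mem _ ⟨i, rfl⟩)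
            (Set.mem_insert_of_mem _ ⟨j, rfl⟩) h))
  rw [h1]
  exact (hb.isCompact_insert_range.image pr_cont).isClosed

theorem EE_sep_aux (j : ℕ) (y : Tor) (hy : y ∈ EE) (hne : y ≠ pr (aj j)) :
    ∃ V₁ V₂ : Set Tor, IsOpen V₁ ∧ IsOpen V₂ ∧ Disjoint V₁ V₂ ∧ EE ⊆ V₁ ∪ V₂ ∧
      pr (aj j) ∈ V₁ ∧ y ∈ V₂ := by
  have h1 : IsClosed ({pr (aj j)} : Set Tor) := isClosed_singleton
  have hd : Disjoint ({pr (aj j)} : Set Tor) (EE \ {pr (aj j)}) := Set.disjoint_sdiff_right
  obtain ⟨V₁, V₂, h2, h3, h4, h5, h6⟩ := (normal_separation h1 (EE_diff_closed j) hd)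
  refine ⟨V₁, V₂, h2, h3, h6, ?_, h4 rfl, h5 ⟨hy, hne⟩⟩
  intro x hx
  by_cases hxj : x = pr (aj j)
  · left; rw [hxj]; exact h4 rfl
  · right; exact h5 ⟨hx, hxj⟩

theorem goodEE : GoodSet EE where
  closed := EE_closed
  dense := by
    have h1 : Dense (pr ⁻¹' EE)ᶜ := preEE_countable.dense_compl ℝ
    have h2 : DenseRange pr := Function.Surjective.denseRange pr_surj
    have h3 := h2.dense_image pr_cont h1
    have h4 : pr '' (pr ⁻¹' EE)ᶜ = EEᶜ := by
      rw [← Set.preimage_compl, Set.image_preimage_eq _ pr_surj]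
    rwa [h4] at h3
  conn := by
    intro x N hN
    obtain ⟨z, rfl⟩ := pr_surj x
    have h1 : pr ⁻¹' N ∈ 𝓝 z := pr_cont.continuousAt hN
    obtain ⟨r, hr, hball⟩ := Metric.mem_nhds_iff.1 h1
    refine ⟨pr '' Metric.ball z r, ?_, ?_, ?_⟩
    · exact (pr_open _ Metric.isOpen_ball).mem_nhds ⟨z, Metric.mem_ball_self hr, rfl⟩
    · rintro _ ⟨w, hw, rfl⟩; exact hball hw
    · have h2 : pr '' Metric.ball z r \ EE = pr '' (Metric.ball z r \ pr ⁻¹' EE) := by
        ext y
        constructor
        · rintro ⟨⟨w, hw, rfl⟩, hy⟩; exact ⟨w, ⟨hw, hy⟩, rfl⟩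
        · rintro ⟨w, ⟨hw, hy⟩, rfl⟩; exact ⟨⟨w, hw, rfl⟩, hy⟩
      rw [h2]
      exact (ball_diff_preconnected z r hr preEE_countable).image _ pr_cont.continuousOn
  sep := by
    intro y₁ h₁ y₂ h₂ hne
    obtain ⟨e, he, rfl⟩ := h₁
    rcases he with rfl | ⟨j, rfl⟩
    · obtain ⟨e', he', rfl⟩ := h₂
      rcases he' with rfl | ⟨j, rfl⟩
      · exact absurd rfl hne
      · obtain ⟨V₁, V₂, a, b, c, d, e, f⟩ := EE_sep_aux j (pr 0) zero_mem_EE hne
        exact ⟨V₂, V₁, b, a, c.symm, by rwa [Set.union_comm], f, e⟩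
    · exact EE_sep_aux j y₂ h₂ hne.symm

/-- A homeomorphism of the torus which preserves the punctures fixes the accumulation point. -/
theorem fix_zero {u : Tor → Tor} (hu : Continuous u) (hui : Function.Injective u)
    (huE : ∀ x ∈ EE, u x ∈ EE) : u (pr 0) = pr 0 := by
  by_contra hne
  obtain ⟨e, he, hye⟩ := huE _ zero_mem_EE
  rcases he with rfl | ⟨j, rfl⟩
  · exact hne hye.symm
  have h1 : IsOpen (u ⁻¹' (EE \ {pr (aj j)})ᶜ) := (EE_diff_closed j).isOpen_compl.preimage hu
  have h2 : pr 0 ∈ u ⁻¹' (EE \ {pr (aj j)})ᶜ := by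
    rw [Set.mem_preimage, ← hye]
    exact fun h => h.2 rfl
  have h3 : Tendsto (fun i => pr (aj i)) atTop (𝓝 (pr 0)) :=
    (pr_cont.tendsto 0).comp aj_tendsto
  obtain ⟨i, hi⟩ := (h3.eventually (h1.mem_nhds h2)).exists
  have h4 : u (pr (aj i)) = pr (aj j) := by
    by_contra h
    exact hi ⟨huE _ (aj_mem_EE i), h⟩
  rw [hye] at h4
  have h5 := hui h4
  have := E0_inj (Set.mem_insert_of_mem _ ⟨i, rfl⟩) (Set.mem_insert _ _) h5
  have h6 := aj_pos i
  rw [this] at h6; simp at h6

/-- The surface `S`: the torus minus the punctures. -/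
abbrev SS : Type := (EEᶜ : Set Tor)

/-- The surface `S'`: the plane minus the preimage of the punctures. -/
abbrev SP : Type := ((pr ⁻¹' EE)ᶜ : Set ℂ)

theorem SP_open : IsOpen ((pr ⁻¹' EE)ᶜ : Set ℂ) := (EE_closed.preimage pr_cont).isOpen_compl

theorem SP_isConnected : IsConnected ((pr ⁻¹' EE)ᶜ : Set ℂ) :=
  (preEE_countable.isPathConnected_compl_of_one_lt_rank one_lt_rank).isConnected

instance : ConnectedSpace SP := isConnected_iff_connectedSpace.1 SP_isConnected

theorem SS_isConnected : IsConnected (EEᶜ : Set Tor) := by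
  have h4 : pr '' (pr ⁻¹' EE)ᶜ = EEᶜ := by
    rw [← Set.preimage_compl, Set.image_preimage_eq _ pr_surj]
  rw [← h4]
  exact SP_isConnected.image _ pr_cont.continuousOn

instance : ConnectedSpace SS := isConnected_iff_connectedSpace.1 SS_isConnected

instance : Nonempty SS := inferInstance
instance : Nonempty SP := inferInstance

/-- The inclusion of `S` in the torus as a partial homeomorphism. -/
noncomputable def incS : OpenPartialHomeomorph SS Tor :=
  EE_closed.isOpen_compl.isOpenEmbedding_subtypeVal.toOpenPartialHomeomorph _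

/-- The inclusion of `S'` in the plane as a partial homeomorphism. -/
noncomputable def incSP : OpenPartialHomeomorph SP ℂ :=
  SP_open.isOpenEmbedding_subtypeVal.toOpenPartialHomeomorph _

theorem incS_apply (x : SS) : incS x = (x : Tor) := rfl
theorem incSP_apply (x : SP) : incSP x = (x : ℂ) := rfl
theorem incS_source : incS.source = Set.univ := rfl
theorem incSP_source : incSP.source = Set.univ := rfl
theorem incS_target : incS.target = (EEᶜ : Set Tor) := by
  simp only [incS, IsOpenEmbedding.toOpenPartialHomeomorph_target, Subtype.range_coe]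
theorem incSP_target : incSP.target = ((pr ⁻¹' EE)ᶜ : Set ℂ) := by
  simp only [incSP, IsOpenEmbedding.toOpenPartialHomeomorph_target, Subtype.range_coe]

/-- The charts of `S`: all charts whose inverse is the covering projection. -/
def chartsS : Set (OpenPartialHomeomorph SS ℂ) :=
  {φ | ∀ w ∈ φ.target, ((φ.symm w : SS) : Tor) = pr w}

/-- Around every point of `S`, with every prescribed representative, there is a chart. -/
theorem exists_chart (z : ℂ) (hz : pr z ∉ EE) :
    ∃ φ ∈ chartsS, (⟨pr z, hz⟩ : SS) ∈ φ.source ∧ φ ⟨pr z, hz⟩ = z := by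
  obtain ⟨e, hze, he⟩ := pr_cov.isLocalHomeomorph z
  refine ⟨incS.trans e.symm, ?_, ?_, ?_⟩
  · intro w hw
    rw [OpenPartialHomeomorph.trans_target] at hw
    have h1 : e w ∈ incS.target := hw.2
    have h2 : incS (incS.symm (e w)) = e w := incS.right_inv h1
    rw [incS_apply] at h2
    show ((incS.symm (e.symm.symm w) : SS) : Tor) = pr w
    rw [OpenPartialHomeomorph.symm_symm, h2, he]
  · rw [OpenPartialHomeomorph.trans_source, incS_source]
    refine ⟨trivial, ?_⟩
    show pr z ∈ e.target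
    rw [he]; exact e.map_source hze
  · show e.symm (pr z) = z
    rw [he]; exact e.left_inv hze

/-- Two germs with the same projection differ by a constant. -/
theorem germ_const {f g : ℂ → ℂ} {z : ℂ} (hf : ContinuousAt f z) (hg : ContinuousAt g z)
    (h : ∀ᶠ w in 𝓝 z, pr (f w) = pr (g w)) : ∀ᶠ w in 𝓝 z, f w = g w + (f z - g z) := by
  have h1 : ContinuousAt (fun w => (f w - g w) - (f z - g z)) z :=
    (hf.sub hg).sub continuousAt_const
  have h2 : ∀ᶠ w in 𝓝 z, ‖(f w - g w) - (f z - g z)‖ < 1 := by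
    have h0 : ‖(f z - g z) - (f z - g z)‖ < 1 := by rw [sub_self, norm_zero]; exact one_pos
    exact h1.norm.eventually_lt continuousAt_const h0
  filter_upwards [h, h2] with w hw hw2
  have h3 : (f w - g w) - (f z - g z) ∈ Lat := by
    refine Lat.sub_mem ?_ ?_
    · exact pr_eq.1 hw.symm
    · exact pr_eq.1 h.self_of_nhds.symm
  have := lat_small h3 hw2
  linear_combination this

theorem OrientPresAt.add_const {f : ℂ → ℂ} {z : ℂ} (h : OrientPresAt f z) (c : ℂ) :
    OrientPresAt (fun w => f w + c) z := by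
  obtain ⟨r₀, hr₀, h⟩ := h
  refine ⟨r₀, hr₀, fun r hr hr' => ?_⟩
  have := h r hr hr'
  have h2 : (fun t : ℝ => (f (z + r * Complex.exp (2 * Real.pi * t * Complex.I)) + c) -
      (f z + c)) = (fun t : ℝ => f (z + r * Complex.exp (2 * Real.pi * t * Complex.I)) - f z) := by
    funext t; ring
  rw [h2]; exact this

theorem orientPresAt_id (z : ℂ) : OrientPresAt (fun w => w) z := by
  simpa using orientPresAt_add_const 0 z

noncomputable instance : OrientedSurface SS where
  t2 := inferInstance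
  secondCountable := inferInstance
  connected := inferInstance
  charts := chartsS
  cover := by
    rintro ⟨x, hx⟩
    obtain ⟨z, rfl⟩ := pr_surj x
    obtain ⟨φ, h1, h2, -⟩ := exists_chart z hx
    exact ⟨φ, h1, h2⟩
  oriented := by
    intro φ hφ ψ hψ x hx hx'
    have hz : φ x ∈ φ.target := φ.map_source hx
    have hc : ContinuousAt (ψ ∘ φ.symm) (φ x) := by
      have a1 : ContinuousAt φ.symm (φ x) := φ.continuousAt_symm hz
      have a2 : ContinuousAt ψ (φ.symm (φ x)) := by
        rw [φ.left_inv hx]; exact ψ.continuousAt hx'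
      exact a2.comp a1
    have hev : ∀ᶠ w in 𝓝 (φ x), pr ((ψ ∘ φ.symm) w) = pr w := by
      have hn : (φ.target ∩ φ.symm ⁻¹' ψ.source) ∈ 𝓝 (φ x) :=
        (φ.isOpen_inter_preimage_symm ψ.open_source).mem_nhds
          ⟨hz, by rw [Set.mem_preimage, φ.left_inv hx]; exact hx'⟩
      filter_upwards [hn] with w hw
      have h1 := hψ (ψ (φ.symm w)) (ψ.map_source hw.2)
      rw [ψ.left_inv hw.2] at h1
      rw [Function.comp_apply, ← h1]
      exact hφ w hw.1
    exact ((orientPresAt_id (φ x)).add_const _).congr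
      (germ_const hc continuousAt_id hev)

noncomputable instance : OrientedSurface SP where
  t2 := inferInstance
  secondCountable := inferInstance
  connected := inferInstance
  charts := {incSP}
  cover := fun x => ⟨incSP, rfl, by rw [incSP_source]; trivial⟩
  oriented := by
    rintro _ rfl _ rfl x hx hx'
    refine (orientPresAt_id (incSP x)).congr ?_
    have hn : incSP.target ∈ 𝓝 (incSP x) := incSP.open_target.mem_nhds (incSP.map_source hx)
    filter_upwards [hn] with w hw
    exact incSP.right_inv hw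

end Pool.Agent.H659R3.BigMCG
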