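import Pool.Agent.H659R3.BigMCG.Lift

/-! The Dehn twist on `S`, its lift to `S'`, and why the lift is not compactly supported. -/

set_option autoImplicit false

open Topology Filter unitInterval

namespace Pool.Agent.H659R3.BigMCG

/-- The correction term on `[0, 1]`. -/
noncomputable def kk (u : ℝ) : ℝ := max 0 (min 1 (3 * u - 1)) - u

theorem kk_cont : Continuous kk := by unfold kk; fun_prop

theorem kk_zero : kk 0 = 0 := by unfold kk; norm_num

theorem kk_one : kk 1 = 0 := by unfold kk; norm_num

/-- The staircase function: `σ (y + 1) = σ y + 1` and `σ = k` on `[k - 1/3, k + 1/3]`. -/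
noncomputable def sg (y : ℝ) : ℝ := y + kk (Int.fract y)

theorem sg_cont : Continuous sg := by
  have h : Continuous (kk ∘ Int.fract) :=
    ContinuousOn.comp_fract'' kk_cont.continuousOn (by rw [kk_zero, kk_one])
  exact continuous_id.add h

theorem sg_add_int (y : ℝ) (n : ℤ) : sg (y + n) = sg y + n := by
  unfold sg; rw [Int.fract_add_intCast]; ring

theorem sg_int (n : ℤ) : sg n = n := by
  unfold sg; rw [Int.fract_intCast, kk_zero, add_zero]

theorem sg_small {y : ℝ} (h : |y| ≤ 1 / 3) : sg y = 0 := by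
  rw [abs_le] at h
  unfold sg kk
  rcases le_or_gt 0 y with h0 | h0
  · have h1 : Int.fract y = y := Int.fract_eq_self.2 ⟨h0, by linarith⟩
    rw [h1]
    have h2 : min 1 (3 * y - 1) ≤ 0 := (min_le_right _ _).trans (by linarith)
    rw [max_eq_left h2]; ring
  · have h1 : Int.fract y = y + 1 := by
      rw [Int.fract_eq_iff]
      exact ⟨by linarith, by linarith, -1, by push_cast; ring⟩
    rw [h1]
    have h2 : min 1 (3 * (y + 1) - 1) = 1 := min_eq_left (by linarith)
    rw [h2, max_eq_right zero_le_one]; ring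

theorem sg_near (k : ℤ) {y : ℝ} (h : |y - k| ≤ 1 / 3) : sg y = k := by
  have h1 := sg_add_int (y - k) k
  rw [sub_add_cancel, sg_small h, zero_add] at h1
  exact h1

/-- The shear `z ↦ z + c σ(Im z)`. -/
noncomputable def shear (c : ℝ) (z : ℂ) : ℂ := z + ((c * sg z.im : ℝ) : ℂ)

theorem shear_cont (c : ℝ) : Continuous (shear c) := by
  unfold shear
  have := sg_cont
  fun_prop

theorem shear_im (c : ℝ) (z : ℂ) : (shear c z).im = z.im := by simp [shear]

theorem shear_shear (c d : ℝ) (z : ℂ) : shear c (shear d z) = shear (c + d) z := by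
  have : shear c (shear d z) = shear d z + ((c * sg z.im : ℝ) : ℂ) := by
    conv_lhs => rw [shear, shear_im]
  rw [this]; unfold shear; push_cast; ring

theorem shear_zero (z : ℂ) : shear 0 z = z := by simp [shear]

/-- Shears preserve the orientation. -/
theorem shear_orient (c : ℝ) (z : ℂ) : OrientPresAt (shear c) z := by
  refine ⟨1, one_pos, fun r hr _ => ?_⟩
  have key := hasWinding_circ hr
  have hform : ∀ t, shear c (z + circ r t) - shear c z =
      circ r t + ((c * (sg (z.im + (circ r t).im) - sg z.im) : ℝ) : ℂ) := by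
    intro t
    unfold shear
    rw [Complex.add_im]
    push_cast; ring
  have hcont : Continuous (fun t => shear c (z + circ r t) - shear c z) := by
    have h1 := shear_cont c
    have h2 := continuous_circ r
    fun_prop
  refine key.of_slit (continuous_circ r) hcont (fun t => ?_) (fun t => ?_)
  · show shear c (z + circ r (t + 1)) - shear c z = shear c (z + circ r t) - shear c z
    rw [circ_add_one]
  · show (shear c (z + circ r t) - shear c z) / circ r t ∈ Complex.slitPlane
    have hne : circ r t ≠ 0 := key.ne_zero t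
    rw [hform]
    set w := circ r t with hw
    set d : ℝ := c * (sg (z.im + w.im) - sg z.im) with hd
    by_contra hns
    have hq : ∃ x : ℝ, x ≤ 0 ∧ (w + (d : ℂ)) / w = x := by
      rw [Complex.mem_slitPlane_iff, not_or] at hns
      push Not at hns
      refine ⟨((w + (d : ℂ)) / w).re, hns.1, ?_⟩
      exact Complex.ext (by simp) (by simp [hns.2])
    obtain ⟨x, hx, hq⟩ := hq
    rw [div_eq_iff hne] at hq
    have him := congrArg Complex.im hq
    have hre := congrArg Complex.re hq
    simp at him hre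
    have him' : w.im = 0 := by
      have : (1 - x) * w.im = 0 := by linarith
      rcases mul_eq_zero.1 this with h | h
      · linarith
      · exact h
    have hd0 : d = 0 := by rw [hd, him', add_zero, sub_self, mul_zero]
    rw [hd0, add_zero] at hre
    have hre' : w.re = 0 := by
      have : (1 - x) * w.re = 0 := by linarith
      rcases mul_eq_zero.1 this with h | h
      · linarith
      · exact h
    exact hne (Complex.ext hre' him')

/-- An integral shear descends to the torus. -/
theorem shear_lat (n : ℤ) {z v : ℂ} (hv : v ∈ Lat) : ∃ v' ∈ Lat, shear n (z + v) = shear n z + v' := by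
  obtain ⟨a, b, rfl⟩ := hv
  refine ⟨(a : ℂ) + b * Complex.I + n * b, ⟨a + n * b, b, by push_cast; ring⟩, ?_⟩
  unfold shear
  have him : (z + ((a : ℂ) + b * Complex.I)).im = z.im + b := by simp
  rw [him, sg_add_int]
  push_cast; ring

theorem shear_mem (n : ℤ) {z : ℂ} (hz : pr z ∈ EE) : pr (shear n z) ∈ EE := by
  obtain ⟨e, he, v, hv, rfl⟩ := mem_EE.1 hz
  obtain ⟨v', hv', h⟩ := shear_lat n (z := e) hv
  rw [h, mem_EE]
  refine ⟨e, he, v', hv', ?_⟩
  have : shear n e = e := by
    unfold shear
    rw [(E0_re he).2.2]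
    have := sg_int 0
    rw [Int.cast_zero] at this
    rw [this]; simp
  rw [this]

theorem shear_not_mem (n : ℤ) {z : ℂ} (hz : pr z ∉ EE) : pr (shear n z) ∉ EE := by
  intro h
  have h1 := shear_mem (-n) h
  rw [shear_shear] at h1
  have : (((-n : ℤ) : ℝ) + (n : ℝ)) = 0 := by push_cast; ring
  rw [this, shear_zero] at h1
  exact hz h1

/-- The induced map of the torus. -/
noncomputable def torShear (n : ℤ) : Tor → Tor :=
  Quotient.map' (shear n) (by
    intro a b hab
    rw [QuotientAddGroup.leftRel_apply] at hab ⊢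
    obtain ⟨v', hv', h⟩ := shear_lat n (z := a) hab
    rw [add_neg_cancel_left] at h
    rw [h, neg_add_cancel_left]
    exact hv')

theorem torShear_pr (n : ℤ) (z : ℂ) : torShear n (pr z) = pr (shear n z) := rfl

theorem torShear_cont (n : ℤ) : Continuous (torShear n) := by
  have h := pr_cov.isQuotientMap pr_surj
  rw [h.continuous_iff]
  exact pr_cont.comp (shear_cont n)

theorem torShear_add (m n : ℤ) (x : Tor) : torShear m (torShear n x) = torShear (m + n) x := by
  obtain ⟨z, rfl⟩ := pr_surj x
  rw [torShear_pr, torShear_pr, torShear_pr, shear_shear]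
  push_cast; rfl

theorem torShear_zero (x : Tor) : torShear 0 x = x := by
  obtain ⟨z, rfl⟩ := pr_surj x
  rw [torShear_pr, Int.cast_zero, shear_zero]

theorem torShear_not_mem (n : ℤ) {x : Tor} (hx : x ∉ EE) : torShear n x ∉ EE := by
  obtain ⟨z, rfl⟩ := pr_surj x
  exact shear_not_mem n hx

/-- The `n`-th power of the Dehn twist of `S`. -/
noncomputable def tw (n : ℤ) : SS ≃ₜ SS where
  toFun := fun x => ⟨torShear n x, torShear_not_mem n x.2⟩
  invFun := fun x => ⟨torShear (-n) x, torShear_not_mem (-n) x.2⟩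
  left_inv := fun x => Subtype.ext (by
    show torShear (-n) (torShear n x) = x
    rw [torShear_add, neg_add_cancel, torShear_zero])
  right_inv := fun x => Subtype.ext (by
    show torShear n (torShear (-n) x) = x
    rw [torShear_add, add_neg_cancel, torShear_zero])
  continuous_toFun := by
    have := torShear_cont n
    fun_prop
  continuous_invFun := by
    have := torShear_cont (-n)
    fun_prop

theorem tw_val (n : ℤ) (z : ℂ) (hz : pr z ∉ EE) :
    ((tw n ⟨pr z, hz⟩ : SS) : Tor) = pr (shear n z) := rfl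

theorem tw_orient (n : ℤ) : PreservesOrientation (tw n) :=
  orient_descend (H := shear n) (shear_cont n) (fun z hz => (tw_val n z hz).symm)
    (fun z => shear_orient n z)

theorem tw_inv (n : ℤ) : (tw n)⁻¹ = tw (-n) := by
  ext x
  show torShear (-n) x = torShear (-n) x
  rfl

theorem tw_mul (m n : ℤ) : tw m * tw n = tw (m + n) := by
  ext x
  exact torShear_add m n x

/-- The Dehn twists as elements of the group. -/
noncomputable def twP (n : ℤ) : HomeoPlus SS :=
  ⟨tw n, tw_orient n, by rw [tw_inv]; exact tw_orient (-n)⟩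

theorem twP_hom (m n : ℤ) : twP m * twP n = twP (m + n) := Subtype.ext (tw_mul m n)

theorem twP_zero : twP 0 = 1 := Subtype.ext (by ext x; exact torShear_zero x)

theorem twP_pow (n : ℤ) : (twP 1) ^ n = twP n := by
  let f : Multiplicative ℤ →* HomeoPlus SS :=
    { toFun := fun m => twP (Multiplicative.toAdd m)
      map_one' := twP_zero
      map_mul' := fun a b => (twP_hom _ _).symm }
  have h := map_zpow f (Multiplicative.ofAdd (1 : ℤ)) n
  rw [← ofAdd_zsmul] at h
  simpa [f] using h.symm

theorem Hl_tw (n : ℤ) (z : ℂ) : Hl (tw n) z = shear n z := by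
  refine (Hl_unique (tw n) (G := shear n) (shear_cont n) ?_ (fun z hz => (tw_val n z hz).symm)
    z).symm
  unfold shear
  have := sg_int 0
  rw [Int.cast_zero] at this
  simp [this]

/-- The compact annulus which supports the twist. -/
def ann : Set ℂ := {z | 0 ≤ z.re ∧ z.re ≤ 1 ∧ 1 / 3 ≤ z.im ∧ z.im ≤ 2 / 3}

theorem ann_compact : IsCompact ann := by
  have h1 : IsClosed ann := by
    have a : ann = {z : ℂ | 0 ≤ z.re} ∩ {z | z.re ≤ 1} ∩ {z | 1 / 3 ≤ z.im} ∩
        {z | z.im ≤ 2 / 3} := by
      ext z; simp only [ann, Set.mem_ofPred_eq, Set.mem_inter_iff]; tauto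
    rw [a]
    refine (((isClosed_le continuous_const Complex.continuous_re).inter
      (isClosed_le Complex.continuous_re continuous_const)).inter
      (isClosed_le continuous_const Complex.continuous_im)).inter
      (isClosed_le Complex.continuous_im continuous_const)
  refine (isCompact_closedBall (0 : ℂ) 2).of_isClosed_subset h1 ?_
  rintro z ⟨a, b, c, d⟩
  rw [mem_closedBall_zero_iff]
  refine (Complex.norm_le_abs_re_add_abs_im z).trans ?_
  rw [abs_of_nonneg a, abs_of_nonneg (by linarith)]
  linarith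

theorem ann_disjoint {z : ℂ} (hz : z ∈ ann) : pr z ∉ EE := by
  intro h
  obtain ⟨e, he, v, ⟨m, n, rfl⟩, rfl⟩ := mem_EE.1 h
  obtain ⟨-, -, h1, h2⟩ := hz
  have h3 : (e + ((m : ℂ) + n * Complex.I)).im = n := by
    simp [(E0_re he).2.2]
  rw [h3] at h1 h2
  have h4 : (0 : ℝ) < n := by linarith
  have h5 : (n : ℝ) < 1 := by linarith
  have h6 : (0 : ℤ) < n := by exact_mod_cast h4
  have h7 : n < (1 : ℤ) := by exact_mod_cast h5
  omega

theorem twist_supported (n : ℤ) : IsCompactlySupported (toMap (twP n)) := by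
  refine ⟨twP n, rfl, Subtype.val ⁻¹' (pr '' ann), ?_, ?_⟩
  · have h1 : IsCompact (pr '' ann) := ann_compact.image pr_cont
    rw [IsInducing.subtypeVal.isCompact_iff, Subtype.image_preimage_coe]
    have : (EEᶜ : Set Tor) ∩ pr '' ann = pr '' ann := by
      rw [Set.inter_eq_right]
      rintro _ ⟨z, hz, rfl⟩
      exact ann_disjoint hz
    rw [this]; exact h1
  · rintro ⟨x, hx⟩ hxK
    obtain ⟨z, rfl, h1, h2, h3, h4⟩ := exists_rep x
    refine Subtype.ext ?_
    show pr (shear n z) = pr z
    have hz : ¬ (1 / 3 ≤ z.im ∧ z.im ≤ 2 / 3) := by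
      rintro ⟨a, b⟩
      exact hxK ⟨z, ⟨h1, h2.le, a, b⟩, rfl⟩
    have hs : ∃ k : ℤ, sg z.im = k := by
      by_cases h5 : z.im < 1 / 3
      · exact ⟨0, sg_near 0 (by rw [Int.cast_zero, sub_zero, abs_of_nonneg h3]; exact h5.le)⟩
      · push Not at h5
        have h6 : 2 / 3 < z.im := by
          by_contra h; push Not at h; exact hz ⟨h5, h⟩
        refine ⟨1, sg_near 1 ?_⟩
        rw [Int.cast_one, abs_le]; constructor <;> linarith
    obtain ⟨k, hk⟩ := hs
    unfold shear
    rw [hk]
    exact pr_add ⟨n * k, 0, by push_cast; ring⟩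

/-- The loops in `S'` around the punctures `ik`. -/
noncomputable def lp (k : ℕ) (t : ℝ) : ℂ := k * Complex.I + circ (1 / 3) t

theorem lp_not_mem (k : ℕ) (t : ℝ) : pr (lp k t) ∉ EE := by
  intro h
  obtain ⟨e, he, v, ⟨m, n, rfl⟩, h1⟩ := mem_EE.1 h
  have h2 : circ (1 / 3) t = e + m + (n - k) * Complex.I := by
    unfold lp at h1; linear_combination h1
  have h3 : ‖circ (1 / 3) t‖ = 1 / 3 := norm_circ (by norm_num) t
  obtain ⟨e1, e2, e3⟩ := E0_re he
  have hre : (circ (1 / 3) t).re = e.re + m := by rw [h2]; simp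
  have him : (circ (1 / 3) t).im = n - k := by rw [h2]; simp [e3]
  have h4 := Complex.sq_norm (circ (1 / 3) t)
  rw [h3, Complex.normSq_apply, hre, him] at h4
  have h5 : ((n : ℝ) - k) * (n - k) < 1 := by nlinarith [mul_self_nonneg (e.re + m)]
  have h6 : (n : ℤ) - k = 0 := by
    have : ((n - k : ℤ) : ℝ) * ((n - k : ℤ) : ℝ) < 1 := by push_cast; exact h5
    have h7 : (n - k : ℤ) * (n - k : ℤ) < 1 := by exact_mod_cast this
    by_contra h8
    have h9 : 1 ≤ (n - k : ℤ) * (n - k : ℤ) := by
      rcases lt_or_gt_of_ne h8 with h | h <;> nlinarith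
    linarith
  have h7 : ((n : ℝ) - k) = 0 := by exact_mod_cast h6
  rw [h7, mul_zero, add_zero] at h4
  have h8 : (e.re + m) * (e.re + m) = 1 / 9 := by nlinarith
  rcases lt_trichotomy m 0 with hm | hm | hm
  · have : (m : ℝ) ≤ -1 := by exact_mod_cast (by omega : m ≤ -1)
    nlinarith
  · rw [hm] at h8; push_cast at h8
    nlinarith
  · have : (1 : ℝ) ≤ m := by exact_mod_cast hm
    nlinarith

theorem lift_twist_not_supported (n : ℤ) (hn : n ≠ 0) :
    ¬ IsCompactlySupported (mapLift (toMap (twP n))) := by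
  rw [mapLift_mk]
  rintro ⟨u, hu, K, hK, hKu⟩
  rw [eq_comm, toMap_eq] at hu
  obtain ⟨Ψ, hΨ, hΨ0, hΨ1⟩ := hu
  -- choose a loop outside the support
  have hb : Bornology.IsBounded (Subtype.val '' K : Set ℂ) :=
    (hK.image continuous_subtype_val).isBounded
  obtain ⟨R, hR⟩ := hb.subset_closedBall 0
  obtain ⟨k, hk0⟩ := exists_nat_gt (max R 0 + 1)
  have hk : R + 1 < k := (by linarith [le_max_left R 0])
  have hk1 : (1 : ℝ) < k := (by linarith [le_max_right R 0])
  have hlpK : ∀ t, (⟨lp k t, lp_not_mem k t⟩ : SP) ∉ K := by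
    intro t ht
    have h1 := hR ⟨_, ht, rfl⟩
    rw [mem_closedBall_zero_iff] at h1
    have h2 : ‖(k * Complex.I : ℂ)‖ = k := by simp
    have h3 : ‖(k * Complex.I : ℂ)‖ ≤ ‖lp k t‖ + ‖circ (1 / 3) t‖ := by
      have : (k * Complex.I : ℂ) = lp k t - circ (1 / 3) t := by unfold lp; ring
      rw [this]; exact norm_sub_le _ _
    rw [h2, norm_circ (by norm_num)] at h3
    simp only at h1
    linarith
  have hlpc : Continuous (lp k) := by
    have := continuous_circ (1 / 3)
    unfold lp; fun_prop
  let c : ℝ → SP := fun t => ⟨lp k t, lp_not_mem k t⟩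
  have hc : Continuous c := hlpc.subtype_mk _
  let a : SP ≃ₜ SP := (Flift (twP n) : SP ≃ₜ SP)
  let Kf : I × ℝ → ℂ := fun p => ((a (Ψ (c p.2, p.1)).1 : SP) : ℂ) - k * Complex.I
  have hKc : Continuous Kf := by
    have h1 : Continuous (fun p : I × ℝ => Ψ (c p.2, p.1)) := by fun_prop
    have h2 : Continuous (fun p : I × ℝ => a (Ψ (c p.2, p.1)).1) :=
      a.continuous.comp (continuous_fst.comp h1)
    exact (continuous_subtype_val.comp h2).sub continuous_const
  have hK0 : ∀ p, Kf p ≠ 0 := by
    intro p h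
    have h1 : ((a (Ψ (c p.2, p.1)).1 : SP) : ℂ) = k * Complex.I := sub_eq_zero.1 h
    have h2 := (a (Ψ (c p.2, p.1)).1).2
    apply h2
    rw [Set.mem_preimage, h1]
    exact lat_mem_EE ⟨0, k, by push_cast; ring⟩
  have hKp : ∀ s t, Kf (s, t + 1) = Kf (s, t) := by
    intro s t
    have : c (t + 1) = c t := Subtype.ext (by
      show lp k (t + 1) = lp k t
      unfold lp; rw [circ_add_one])
    simp only [Kf, this]
  have hstart : HasWinding (fun t => Kf (0, t)) 0 := by
    have hform : ∀ t, Kf (0, t) = circ (1 / 3) t + (n * k : ℤ) := by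
      intro t
      simp only [Kf]
      rw [hΨ0]
      show Hl (tw n) (lp k t) - k * Complex.I = _
      rw [Hl_tw]
      unfold shear
      have h1 : (lp k t).im = k + (circ (1 / 3) t).im := by unfold lp; simp
      have h2 : sg (lp k t).im = (k : ℤ) := by
        apply sg_near
        rw [h1]
        have h3 := Complex.abs_im_le_norm (circ (1 / 3) t)
        rw [norm_circ (by norm_num)] at h3
        push_cast
        rw [add_sub_cancel_left]; exact h3
      rw [h2]; unfold lp; push_cast; ring
    have hnk : ((n * k : ℤ) : ℂ) ≠ 0 := by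
      have : (n * k : ℤ) ≠ 0 := by
        refine mul_ne_zero hn ?_
        have : (0 : ℝ) < k := by linarith
        exact_mod_cast this.ne'
      exact_mod_cast this
    refine hasWinding_zero_of_slit (by fun_prop) (hKp 0) ((n * k : ℤ) : ℂ) hnk (fun t => ?_)
    rw [hform, add_div, div_self hnk, Complex.mem_slitPlane_iff]
    left
    have h1 : ‖circ (1 / 3) t / ((n * k : ℤ) : ℂ)‖ ≤ 1 / 3 := by
      rw [norm_div, norm_circ (by norm_num)]
      have h2 : (1 : ℝ) ≤ ‖((n * k : ℤ) : ℂ)‖ := by
        rw [Complex.norm_intCast]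
        have : (1 : ℤ) ≤ |n * k| := Int.one_le_abs (by exact_mod_cast hnk)
        exact_mod_cast this
      exact div_le_self (by norm_num) h2
    have h2 := Complex.abs_re_le_norm (circ (1 / 3) t / ((n * k : ℤ) : ℂ))
    have h3 := (abs_le.1 (h2.trans h1)).1
    rw [Complex.add_re, Complex.one_re]
    linarith
  have hend := hstart.homotopy hKc hK0 hKp 1
  have hend' : HasWinding (fun t => Kf (1, t)) 1 := by
    have hform : (fun t => Kf (1, t)) = circ (1 / 3) := by
      funext t
      simp only [Kf]
      rw [hΨ1]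
      have h2 : a ((((Flift (twP n))⁻¹ * u : HomeoPlus SP) : SP ≃ₜ SP) (c t)) =
          (u : SP ≃ₜ SP) (c t) := by
        show a (a⁻¹ ((u : SP ≃ₜ SP) (c t))) = _
        exact a.apply_symm_apply _
      rw [h2, hKu _ (hlpK t)]
      show lp k t - k * Complex.I = circ (1 / 3) t
      unfold lp; ring
    rw [hform]; exact hasWinding_circ (by norm_num)
  exact absurd (hend.unique hend') (by norm_num)

end Pool.Agent.H659R3.BigMCG
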