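import Mathlib

/-! Winding numbers of periodic nonvanishing functions `ℝ → ℂ`, through continuous logarithms. -/

set_option autoImplicit false

open Topology Complex unitInterval

namespace Pool.Agent.H659R3.BigMCG

/-- The `1`-periodic function `γ` into `ℂ ∖ {0}` winds `n` times about `0`: it has a continuous
logarithm `L` with `L (t + 1) = L t + 2 π i n`. -/
def HasWinding (γ : ℝ → ℂ) (n : ℤ) : Prop :=
  ∃ L : ℝ → ℂ, Continuous L ∧ (∀ t, Complex.exp (L t) = γ t) ∧
    ∀ t, L (t + 1) = L t + n * (2 * Real.pi * Complex.I)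

theorem HasWinding.ne_zero {γ : ℝ → ℂ} {n : ℤ} (h : HasWinding γ n) (t : ℝ) : γ t ≠ 0 := by
  obtain ⟨L, -, hL, -⟩ := h
  rw [← hL t]
  exact Complex.exp_ne_zero _

theorem HasWinding.periodic {γ : ℝ → ℂ} {n : ℤ} (h : HasWinding γ n) (t : ℝ) :
    γ (t + 1) = γ t := by
  obtain ⟨L, -, hL, hp⟩ := h
  rw [← hL, hp, Complex.exp_add, hL, Complex.exp_int_mul_two_pi_mul_I, mul_one]

/-- The exponential as a covering of the punctured plane. -/
theorem cov_exp : IsCoveringMap fun z : ℂ ↦ (⟨_, z.exp_ne_zero⟩ : {z : ℂ // z ≠ 0}) :=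
  Complex.isCoveringMap_exp

/-- Two lifts of a map on a connected space which agree at a point agree. -/
theorem log_unique {A : Type*} [TopologicalSpace A] [PreconnectedSpace A] {L₁ L₂ : A → ℂ}
    (h₁ : Continuous L₁) (h₂ : Continuous L₂)
    (h : ∀ a, Complex.exp (L₁ a) = Complex.exp (L₂ a)) (a₀ : A) (h0 : L₁ a₀ = L₂ a₀) (a : A) :
    L₁ a = L₂ a := by
  have := cov_exp.eq_of_comp_eq (g₁ := L₁) (g₂ := L₂) h₁ h₂
    (by funext a; exact Subtype.ext (h a)) a₀ h0
  exact congrFun this a

theorem HasWinding.unique {γ : ℝ → ℂ} {m n : ℤ} (hm : HasWinding γ m) (hn : HasWinding γ n) :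
    m = n := by
  obtain ⟨L, hLc, hL, hLp⟩ := hm
  obtain ⟨M, hMc, hM, hMp⟩ := hn
  have key : ∀ t, L t = M t + (L 0 - M 0) := by
    have h0 : Complex.exp (L 0 - M 0) = 1 := by
      rw [Complex.exp_sub, hL, hM, div_self]
      rw [← hM]; exact Complex.exp_ne_zero _
    exact log_unique hLc (hMc.add continuous_const)
      (fun t => by rw [Complex.exp_add, hL, hM, h0, mul_one]) 0 (by ring)
  have h1 := hLp 0
  have h2 := hMp 0
  have h3 := key 1
  rw [zero_add] at h1 h2
  rw [h1, h2] at h3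
  have h4 : ((m : ℂ) - n) * (2 * Real.pi * Complex.I) = 0 := by linear_combination h3
  have h5 : (2 * Real.pi * Complex.I : ℂ) ≠ 0 := Complex.two_pi_I_ne_zero
  have h6 : (m : ℂ) - n = 0 := by
    rcases mul_eq_zero.1 h4 with h | h
    · exact h
    · exact absurd h h5
  exact_mod_cast sub_eq_zero.1 h6

/-- Homotopy invariance of the winding number. -/
theorem HasWinding.homotopy {K : I × ℝ → ℂ} (hK : Continuous K) (h0 : ∀ p, K p ≠ 0)
    (hp : ∀ s t, K (s, t + 1) = K (s, t)) {n : ℤ} (h : HasWinding (fun t => K (0, t)) n) (s : I) :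
    HasWinding (fun t => K (s, t)) n := by
  obtain ⟨L, hLc, hL, hLp⟩ := h
  let H : C(I × ℝ, {z : ℂ // z ≠ 0}) := ⟨fun p => ⟨K p, h0 p⟩, hK.subtype_mk _⟩
  let f : C(ℝ, ℂ) := ⟨L, hLc⟩
  have H0 : ∀ a : ℝ, H (0, a) = (fun z : ℂ ↦ (⟨_, z.exp_ne_zero⟩ : {z : ℂ // z ≠ 0})) (f a) :=
    fun a => Subtype.ext (hL a).symm
  let G := cov_exp.liftHomotopy H f H0
  have hG1 : ∀ p, Complex.exp (G p) = K p := fun p =>
    congrArg Subtype.val (congrFun (cov_exp.liftHomotopy_lifts H f H0) p)
  have hG2 : ∀ t, G (0, t) = L t := cov_exp.liftHomotopy_zero H f H0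
  refine ⟨fun t => G (s, t), by fun_prop, fun t => hG1 _, fun t => ?_⟩
  have := log_unique (A := I × ℝ) (L₁ := fun p => G (p.1, p.2 + 1))
    (L₂ := fun p => G (p.1, p.2) + n * (2 * Real.pi * Complex.I)) (by fun_prop) (by fun_prop)
    (fun p => by
      rw [hG1, Complex.exp_add, Complex.exp_int_mul_two_pi_mul_I, mul_one, hG1, hp]) (0, 0)
    (by simp only [hG2]; exact hLp 0) (s, t)
  exact this

/-- If `δ / γ` avoids the negative half axis then `δ` winds as often as `γ`. -/
theorem HasWinding.of_slit {γ δ : ℝ → ℂ} {n : ℤ} (h : HasWinding γ n) (hγ : Continuous γ)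
    (hδ : Continuous δ) (hper : ∀ t, δ (t + 1) = δ t)
    (hs : ∀ t, δ t / γ t ∈ Complex.slitPlane) : HasWinding δ n := by
  have hγ0 := h.ne_zero
  have hγp := h.periodic
  obtain ⟨L, hLc, hL, hLp⟩ := h
  refine ⟨fun t => L t + Complex.log (δ t / γ t), ?_, fun t => ?_, fun t => ?_⟩
  · refine hLc.add ?_
    rw [continuous_iff_continuousAt]
    intro t
    exact ((hδ.continuousAt.div hγ.continuousAt (hγ0 t))).clog (hs t)
  · rw [Complex.exp_add, hL, Complex.exp_log (Complex.slitPlane_ne_zero (hs t))]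
    field_simp [hγ0 t]
  · show L (t + 1) + Complex.log (δ (t + 1) / γ (t + 1)) = L t + Complex.log (δ t / γ t) +
      n * (2 * Real.pi * Complex.I)
    rw [hLp, hγp, hper]; ring

/-- The standard circle `r e^{2 π i t}`. -/
noncomputable def circ (r : ℝ) (t : ℝ) : ℂ := r * Complex.exp (2 * Real.pi * t * Complex.I)

theorem continuous_circ (r : ℝ) : Continuous (circ r) := by
  unfold circ; fun_prop

theorem circ_add_one (r t : ℝ) : circ r (t + 1) = circ r t := by
  unfold circ
  congr 1
  have : (2 * Real.pi * ((t + 1 : ℝ) : ℂ) * Complex.I) =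
      2 * Real.pi * t * Complex.I + 2 * Real.pi * Complex.I := by push_cast; ring
  rw [this, Complex.exp_add, Complex.exp_two_pi_mul_I, mul_one]

theorem norm_circ {r : ℝ} (hr : 0 ≤ r) (t : ℝ) : ‖circ r t‖ = r := by
  unfold circ
  have : (2 * Real.pi * (t : ℂ) * Complex.I) = ((2 * Real.pi * t : ℝ) : ℂ) * Complex.I := by
    push_cast; ring
  rw [norm_mul, this, Complex.norm_exp_ofReal_mul_I, mul_one, Complex.norm_real,
    Real.norm_of_nonneg hr]

theorem hasWinding_circ {r : ℝ} (hr : 0 < r) : HasWinding (circ r) 1 := by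
  refine ⟨fun t => Complex.log r + 2 * Real.pi * t * Complex.I, by fun_prop, fun t => ?_,
    fun t => by push_cast; ring⟩
  rw [Complex.exp_add, Complex.exp_log (by exact_mod_cast hr.ne')]
  rfl

/-- A nonvanishing constant plus a function in an open half plane does not wind. -/
theorem hasWinding_zero_of_slit {γ : ℝ → ℂ} (hγ : Continuous γ) (hper : ∀ t, γ (t + 1) = γ t)
    (c : ℂ) (hc : c ≠ 0) (hs : ∀ t, γ t / c ∈ Complex.slitPlane) : HasWinding γ 0 := by
  have h0 : HasWinding (fun _ : ℝ => c) 0 :=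
    ⟨fun _ => Complex.log c, continuous_const, fun _ => Complex.exp_log hc, fun _ => by simp⟩
  exact h0.of_slit continuous_const hγ hper hs

/-- `f` preserves the orientation of the plane at `z`: for all small `r > 0` the image under `f`
of the positively oriented circle of radius `r` about `z` winds exactly once, anticlockwise,
about `f z`. -/
def OrientPresAt (f : ℂ → ℂ) (z : ℂ) : Prop :=
  ∃ r₀ : ℝ, 0 < r₀ ∧ ∀ r : ℝ, 0 < r → r < r₀ →
    HasWinding (fun t : ℝ => f (z + r * Complex.exp (2 * Real.pi * t * Complex.I)) - f z) 1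

theorem OrientPresAt.congr {f g : ℂ → ℂ} {z : ℂ} (h : OrientPresAt f z)
    (hfg : ∀ᶠ w in 𝓝 z, g w = f w) : OrientPresAt g z := by
  obtain ⟨r₀, hr₀, h⟩ := h
  obtain ⟨ε, hε, hball⟩ := Metric.eventually_nhds_iff.1 hfg
  refine ⟨min r₀ ε, lt_min hr₀ hε, fun r hr0 hr => ?_⟩
  have h1 := h r hr0 (hr.trans_le (min_le_left _ _))
  have h2 : (fun t : ℝ => g (z + r * Complex.exp (2 * Real.pi * t * Complex.I)) - g z) =
      (fun t : ℝ => f (z + r * Complex.exp (2 * Real.pi * t * Complex.I)) - f z) := by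
    funext t
    have hd : dist (z + circ r t) z < ε := by
      rw [dist_eq_norm, add_sub_cancel_left, norm_circ hr0.le]
      exact hr.trans_le (min_le_right _ _)
    have := hball hd
    unfold circ at this
    rw [this, hball (by simpa using hε)]
  rw [h2]; exact h1

/-- Translations preserve the orientation. -/
theorem orientPresAt_add_const (c z : ℂ) : OrientPresAt (fun w => w + c) z := by
  refine ⟨1, one_pos, fun r hr _ => ?_⟩
  have := hasWinding_circ hr
  have h2 : (fun t : ℝ => (z + r * Complex.exp (2 * Real.pi * t * Complex.I) + c) - (z + c)) =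
      circ r := by
    funext t; unfold circ; ring
  rw [h2]; exact this

/-- The composition of orientation-preserving germs. -/
theorem OrientPresAt.comp {f g : ℂ → ℂ} {z : ℂ} (hf : OrientPresAt f z)
    (hg : OrientPresAt g (f z)) (hfc : ContinuousAt f z) {δ : ℝ} (hδ : 0 < δ)
    (hgc : ContinuousOn g (Metric.ball (f z) δ)) (hgi : Set.InjOn g (Metric.ball (f z) δ)) :
    OrientPresAt (g ∘ f) z := by
  obtain ⟨r₁, hr₁, hf⟩ := hf
  obtain ⟨r₂, hr₂, hg⟩ := hg
  obtain ⟨r₃, hr₃, hf3⟩ := Metric.continuousAt_iff.1 hfc (δ / 2) (by positivity)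
  refine ⟨min r₁ r₃, lt_min hr₁ hr₃, fun r hr0 hr => ?_⟩
  obtain ⟨L, hLc, hL, hLp⟩ := hf r hr0 (hr.trans_le (min_le_left _ _))
  -- the logarithm has small real part
  have hexp : ∀ t, ‖Complex.exp (L t)‖ < δ / 2 := by
    intro t
    rw [hL, ← dist_eq_norm]
    apply hf3
    have : dist (z + circ r t) z < r₃ := by
      rw [dist_eq_norm, add_sub_cancel_left, norm_circ hr0.le]
      exact hr.trans_le (min_le_right _ _)
    exact this
  have hre : ∀ t, (L t).re < Real.log (δ / 2) := by
    intro t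
    have := hexp t
    rw [Complex.norm_exp] at this
    rwa [Real.lt_log_iff_exp_lt (by positivity)]
  -- the final circle
  obtain ⟨ρ, hρ0, hρδ, hρr⟩ : ∃ ρ : ℝ, 0 < ρ ∧ ρ < δ / 2 ∧ ρ < r₂ :=
    ⟨min (δ / 2) r₂ / 2, by positivity,
      (half_lt_self (by positivity)).trans_le (min_le_left _ _),
      (half_lt_self (by positivity)).trans_le (min_le_right _ _)⟩
  let c : ℝ := Real.log ρ
  have hcρ : Real.exp c = ρ := Real.exp_log hρ0
  let M : I × ℝ → ℂ := fun p => ((p.1 : ℝ) : ℂ) * L p.2 +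
    (1 - ((p.1 : ℝ) : ℂ)) * (c + 2 * Real.pi * p.2 * Complex.I)
  have hMc : Continuous M := by
    have h1 : Continuous fun p : I × ℝ => ((p.1 : ℝ) : ℂ) := by fun_prop
    have h2 : Continuous fun p : I × ℝ => L p.2 := hLc.comp continuous_snd
    exact (h1.mul h2).add ((continuous_const.sub h1).mul (by fun_prop))
  have hMre : ∀ p, (M p).re < Real.log (δ / 2) := by
    intro p
    have h1 : (M p).re = (p.1 : ℝ) * (L p.2).re + (1 - (p.1 : ℝ)) * c := by
      simp only [M]
      rw [← Complex.ofReal_one, ← Complex.ofReal_sub, Complex.add_re, Complex.re_ofReal_mul,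
        Complex.re_ofReal_mul]
      simp
    have h2 := hre p.2
    have h3 : c < Real.log (δ / 2) := Real.log_lt_log hρ0 hρδ
    rw [h1]
    have h4 := p.1.2.1
    have h5 := p.1.2.2
    rcases eq_or_lt_of_le h4 with h6 | h6
    · rw [← h6]; simpa using h3
    · nlinarith
  have hMball : ∀ p, f z + Complex.exp (M p) ∈ Metric.ball (f z) δ := by
    intro p
    rw [Metric.mem_ball, dist_eq_norm, add_sub_cancel_left, Complex.norm_exp]
    have h1 := hMre p
    rw [Real.lt_log_iff_exp_lt (by positivity)] at h1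
    linarith
  let K : I × ℝ → ℂ := fun p => g (f z + Complex.exp (M p)) - g (f z)
  have hKc : Continuous K := by
    refine Continuous.sub ?_ continuous_const
    exact hgc.comp_continuous (by fun_prop) hMball
  have hK0 : ∀ p, K p ≠ 0 := by
    intro p h
    have h1 := hgi (hMball p) (Metric.mem_ball_self hδ) (sub_eq_zero.1 h)
    simp at h1
  have hKp : ∀ s t, K (s, t + 1) = K (s, t) := by
    intro s t
    have h1 : M (s, t + 1) = M (s, t) + 2 * Real.pi * Complex.I := by
      simp only [M]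
      rw [hLp]; push_cast; ring
    simp only [K]
    rw [h1, Complex.exp_add, Complex.exp_two_pi_mul_I, mul_one]
  have hstart : HasWinding (fun t => K (0, t)) 1 := by
    have := hg ρ hρ0 hρr
    convert this using 3 with t
    simp only [M]
    rw [Set.Icc.coe_zero, Complex.ofReal_zero, zero_mul, zero_add, sub_zero, one_mul,
      Complex.exp_add, ← Complex.ofReal_exp, hcρ]
  have hend := hstart.homotopy hKc hK0 hKp 1
  convert hend using 2 with t
  simp only [K, M]
  rw [Set.Icc.coe_one, Complex.ofReal_one, one_mul, sub_self, zero_mul, add_zero, hL]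
  simp

end Pool.Agent.H659R3.BigMCG
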